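import Pool.Agent.U192.PT.Down

/-!
Transfer of nonvanishing and abundance between `Y` and the varieties dominated by `X × Y`.
-/

set_option autoImplicit false
set_option linter.overlappingInstances false
set_option linter.unusedSectionVars false

open FF IntermediateField Pool.Agent.W619.PQ Pool.Agent.W603.LV Pool.Agent.Y172
open Pool.Agent.W602.GT (Divisorial DerReg IsPluri KodGe)
open Pool.Agent.W619.TW (HasIndep RR)
open Pool.Agent.Y174 (PairSec PairKod PairNum IsPull IsPullFib LiesOn resPl)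
open Pool.Agent.U192.PB
open Pool.Agent.U192.NM (dg pol)
open Pool.Agent.U192.PE
open Pool.Agent.U192.PN (IsProd DivBd fib_of num_fib easy_pair divBd_pull exists_prod prod_ord
  HorReg PReg PairNeg horReg_ge)

namespace Pool.Agent.U192.PT

/-- one nonzero section -/
theorem indep_one {K : Type} [Field K] [Algebra ℂ K] {n : ℕ}
    {P : ((Fin n → Derivation ℂ K K) → K) → Prop} :
    HasIndep ℂ K n 1 P ↔ ∃ ω, P ω ∧ ω ≠ 0 := by
  constructor
  · rintro ⟨ω, hω, hP⟩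
    exact ⟨ω 0, hP 0, hω.ne_zero 0⟩
  · rintro ⟨ω, hP, hω⟩
    refine ⟨fun _ => ω, ?_, fun _ => hP⟩
    rw [linearIndependent_unique_iff]
    exact hω

section

variable {L : Type} [Field L] [Algebra ℂ L] {U T : IntermediateField ℂ L}

/-- **Algebraically independent functions in a compositum.** -/
theorem many_ratios {d b : ℕ} (hU : Algebra.trdeg ℂ U = d) (R : Set T)
    {x : Fin (d + b) → L} (hx : AlgebraicIndependent ℂ x)
    (hxR : ∀ l, x l ∈ U ⊔ IntermediateField.adjoin ℂ ((fun τ : T => (τ : L)) '' R)) :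
    ∃ s : Fin b → T, (∀ i, s i ∈ R) ∧ AlgebraicIndependent ℂ s := by
  classical
  obtain ⟨M, hM⟩ : ∃ M : IntermediateField ℂ L,
    M = IntermediateField.adjoin ℂ ((fun τ : T => (τ : L)) '' R) := ⟨_, rfl⟩
  have hRM : ∀ τ ∈ R, (τ : L) ∈ M := by
    intro τ hτ
    rw [hM]
    exact IntermediateField.subset_adjoin _ _ ⟨τ, hτ, rfl⟩
  have hMT : ∀ z ∈ M, z ∈ T := by
    intro z hz
    have h1 : M ≤ T := by
      rw [hM, IntermediateField.adjoin_le_iff]
      rintro _ ⟨τ, -, rfl⟩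
      exact τ.2
    exact h1 hz
  obtain ⟨R', hR'⟩ : ∃ R' : Set M, R' = {z : M | ∃ τ ∈ R, (τ : L) = z} := ⟨_, rfl⟩
  have halg : Algebra.IsAlgebraic (Algebra.adjoin ℂ R') M := by
    have h1 : IntermediateField.adjoin ℂ R' = ⊤ := by
      rw [eq_top_iff]
      intro z _
      have h2 : (IntermediateField.adjoin ℂ R').map M.val = M := by
        rw [IntermediateField.adjoin_map]
        conv_rhs => rw [hM]
        congr 1
        ext w
        constructor
        · rintro ⟨w', hw', rfl⟩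
          rw [hR'] at hw'
          obtain ⟨τ, hτ, h3⟩ := hw'
          exact ⟨τ, hτ, h3⟩
        · rintro ⟨τ, hτ, rfl⟩
          refine ⟨⟨(τ : L), hRM τ hτ⟩, ?_, rfl⟩
          rw [hR']
          exact ⟨τ, hτ, rfl⟩
      have h3 : (z : L) ∈ (IntermediateField.adjoin ℂ R').map M.val := by
        rw [h2]
        exact z.2
      obtain ⟨z', hz', h4⟩ := h3
      have h5 : z' = z := Subtype.ext h4
      rw [← h5]
      exact hz'
    have h2 : ∀ z : M, IsAlgebraic (IntermediateField.adjoin ℂ R') z := by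
      intro z
      have h3 : z ∈ IntermediateField.adjoin ℂ R' := by
        rw [h1]
        exact IntermediateField.mem_top
      exact isAlgebraic_algebraMap (⟨z, h3⟩ : IntermediateField.adjoin ℂ R')
    exact Pool.Agent.W619.PQ.alg_adjoin h2
  obtain ⟨B, hBR, hB⟩ := exists_isTranscendenceBasis_subset (R := ℂ) (A := M) R'
  have hτ : ∀ z : B, ∃ τ ∈ R, (τ : L) = ((z : M) : L) := by
    intro z
    have h1 := hBR z.2
    rw [hR'] at h1
    exact h1
  choose f hfR hf using hτ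
  -- independence of the chosen elements
  have hfi : AlgebraicIndependent ℂ f := by
    have h1 : AlgebraicIndependent ℂ fun z : B => ((z : M) : L) :=
      hB.1.map' (f := M.val) M.val.injective
    have h2 : (fun z : B => ((z : M) : L)) = T.val ∘ f := by
      funext z
      exact (hf z).symm
    rw [h2] at h1
    exact (AlgHom.algebraicIndependent_iff T.val T.val.injective).1 h1
  -- the count
  obtain ⟨u, hu⟩ := Pool.Agent.W636.PG.exists_basis ℂ U d hU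
  obtain ⟨S, hS⟩ : ∃ S : Set L, S = Set.range (fun j : Fin d => (u j : L)) ∪
    Set.range fun z : B => ((z : M) : L) := ⟨_, rfl⟩
  have h1 : U ≤ Pool.Agent.W904.PG.acl ℂ S :=
    (Pool.Agent.W904.PG.le_acl_of_basis U u hu).trans
      (Pool.Agent.W904.PG.acl_mono (by
        rw [hS]
        exact Set.subset_union_left))
  have h2 : M ≤ Pool.Agent.W904.PG.acl ℂ S :=
    (Pool.Agent.W904.PG.le_acl_of_basis M (fun z : B => (z : M)) hB).trans
      (Pool.Agent.W904.PG.acl_mono (by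
        rw [hS]
        exact Set.subset_union_right))
  have h3 : ∀ l, x l ∈ Pool.Agent.W904.PG.acl ℂ S := by
    intro l
    have h4 := hxR l
    rw [← hM] at h4
    exact (sup_le h1 h2) h4
  have h4 := Pool.Agent.W904.PG.trdeg_le_acl S _ (le_refl (Pool.Agent.W904.PG.acl ℂ S))
  have h5 : AlgebraicIndependent ℂ fun l => (⟨x l, h3 l⟩ : Pool.Agent.W904.PG.acl ℂ S) := by
    refine (AlgHom.algebraicIndependent_iff (Pool.Agent.W904.PG.acl ℂ S).val
      (Pool.Agent.W904.PG.acl ℂ S).val.injective).1 ?_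
    exact hx
  have h6 := h5.cardinalMk_le_trdeg
  rw [Cardinal.mk_fin] at h6
  have h7 : Cardinal.mk S ≤ Cardinal.mk B + (d : ℕ) := by
    rw [hS]
    refine (Cardinal.mk_union_le _ _).trans ?_
    rw [add_comm]
    refine add_le_add Cardinal.mk_range_le ?_
    refine Cardinal.mk_range_le.trans ?_
    rw [Cardinal.mk_fin]
  have h8 := (h6.trans h4).trans h7
  have h9 : (b : Cardinal) ≤ Cardinal.mk B := by
    rw [add_comm d b] at h8
    push_cast at h8
    exact (Cardinal.add_le_add_iff_of_lt_aleph0 (Cardinal.natCast_lt_aleph0)).1 h8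
  rw [← Cardinal.mk_fin] at h9
  obtain ⟨g⟩ := Cardinal.le_def _ _ |>.1 h9
  exact ⟨fun i => f (g i), fun i => hfR _, hfi.comp _ g.injective⟩

end

section

variable {K L : Type} [Field K] [Field L] [Algebra ℂ K] [Algebra ℂ L] [Algebra K L]
  [IsScalarTower ℂ K L] [FiniteDimensional K L] {U T : IntermediateField ℂ L}
  [Algebra.EssFiniteType ℂ U] [Algebra.EssFiniteType ℂ T]

theorem sec_j {F : Type} [Field F] [Algebra ℂ F] {n m : ℕ} {δ : Place ℂ F → ℝ}
    {ω : (Fin n → Derivation ℂ F F) → F} :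
    PairSec ℂ F n δ {1} m 0 ω ↔ PairSec ℂ F n δ {1} m 1 ω := by
  constructor
  · refine fun h => ⟨h.1, fun v hv G hG => ?_⟩
    rcases h.2 v hv G hG with h1 | ⟨s, hs, hs0, h1⟩
    · exact Or.inl h1
    · refine Or.inr ⟨s, hs, hs0, ?_⟩
      rw [Finset.mem_singleton] at hs
      rw [hs, v.ord_one] at h1 ⊢
      simpa using h1
  · refine fun h => ⟨h.1, fun v hv G hG => ?_⟩
    rcases h.2 v hv G hG with h1 | ⟨s, hs, hs0, h1⟩
    · exact Or.inl h1
    · refine Or.inr ⟨s, hs, hs0, ?_⟩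
      rw [Finset.mem_singleton] at hs
      rw [hs, v.ord_one] at h1 ⊢
      simpa using h1

theorem kod_zero {F : Type} [Field F] [Algebra ℂ F] {n : ℕ} {δ : Place ℂ F → ℝ} :
    PairKod ℂ F n δ 0 ↔ ∃ m : ℕ, 1 ≤ m ∧ HasIndep ℂ F n 1 (PairSec ℂ F n δ {1} m 1) := by
  constructor
  · rintro ⟨m, hm, ω, hω, D, hD, -⟩
    refine ⟨m, hm, indep_one.2 ⟨ω 0, sec_j.1 (hω 0), fun h => hD 0 ?_⟩⟩
    rw [h]
    rfl
  · rintro ⟨m, hm, h⟩
    obtain ⟨ω, hω, hne⟩ := indep_one.1 h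
    obtain ⟨D, hD⟩ := Function.ne_iff.1 hne
    refine ⟨m, hm, fun _ => ω, fun _ => sec_j.2 hω, D, fun _ => hD, ?_⟩
    exact (algebraicIndependent_empty_type_iff).2 (algebraMap ℂ F).injective

/-- **A section on `W` gives a section on `Y`.** -/
theorem sec_down {d r : ℕ} (hsup : U ⊔ T = ⊤) (hU : Algebra.trdeg ℂ U = d)
    (hT : Algebra.trdeg ℂ T = (r + 1 : ℕ)) (hL : Algebra.trdeg ℂ L = (d + (r + 1) : ℕ))
    {δ : Place ℂ K → ℝ} {δV : Place ℂ L → ℝ} (hδV : IsPull δ δV) {δT : Place ℂ T → ℝ}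
    (hδT0 : ∀ P, 0 ≤ δT P) (hprod : IsProd U T (d + (r + 1)) δV δT) (S : Finset K) :
    ∃ ST : Finset T, (S = {1} → ST = {1}) ∧ ∀ m : ℕ,
      HasIndep ℂ K (d + (r + 1)) 1 (PairSec ℂ K (d + (r + 1)) δ S m 1) →
      HasIndep ℂ T (r + 1) 1 (PairSec ℂ T (r + 1) δT ST m 1) := by
  classical
  have hnK : Algebra.trdeg ℂ K = (d + (r + 1) : ℕ) := Pool.Agent.Y184.NT.trdeg_below (K := L) hL
  obtain ⟨y, hy⟩ := Pool.Agent.W636.PG.exists_basis ℂ K _ hnK
  obtain ⟨EK, hEK⟩ := Pool.Agent.W636.PG.exists_duals ℂ K _ y hy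
  obtain ⟨ST, q, ρ, t, Et, hq, hρ, ht, hEt, hone, hdown⟩ :=
    down hsup hU hT hL hδV hδT0 hprod hy hEK S
  refine ⟨ST, fun h => (hone h).2, fun m hi => ?_⟩
  obtain ⟨ω, hω, hne⟩ := indep_one.1 hi
  have h1 : ω EK ≠ 0 := by
    intro h0
    apply hne
    funext G
    have h2 : ω G = _ := pluri_coord hy hEK hω.1 G
    rw [h2, h0, mul_zero]
    rfl
  obtain ⟨l, β, μ, hval, hsec⟩ := hdown m ω hω
  have h2 : ∃ i, μ i ≠ 0 := by
    by_contra hcon
    push Not at hcon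
    have h3 : q * (ρ ^ m * algebraMap K L (ω EK)) ≠ 0 :=
      mul_ne_zero hq (mul_ne_zero (pow_ne_zero _ hρ) (by rwa [Ne, map_eq_zero]))
    apply h3
    rw [hval]
    refine Finset.sum_eq_zero fun i _ => ?_
    rw [hcon i]
    simp
  obtain ⟨i, hi⟩ := h2
  refine indep_one.2 ⟨_, hsec i, fun h => hi ?_⟩
  have h3 := congrFun h Et
  have h4 : (Matrix.of fun i j => Et i (t j)).det = 1 := by
    have h5 : (Matrix.of fun i j => Et i (t j)) = (1 : Matrix (Fin (r + 1)) (Fin (r + 1)) T) := by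
      ext i j
      rw [Matrix.of_apply, hEt, Matrix.one_apply]
    rw [h5, Matrix.det_one]
  rw [h4, one_pow, one_mul] at h3
  exact h3

/-- **The Kodaira dimension of `W` is at most `dim X + κ (Y)`.** -/
theorem kod_down {d r b : ℕ} (hsup : U ⊔ T = ⊤) (hU : Algebra.trdeg ℂ U = d)
    (hT : Algebra.trdeg ℂ T = (r + 1 : ℕ)) (hL : Algebra.trdeg ℂ L = (d + (r + 1) : ℕ))
    {δ : Place ℂ K → ℝ} {δV : Place ℂ L → ℝ} (hδV : IsPull δ δV) {δT : Place ℂ T → ℝ}
    (hδT0 : ∀ P, 0 ≤ δT P) (hprod : IsProd U T (d + (r + 1)) δV δT)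
    (hK : PairKod ℂ K (d + (r + 1)) δ (d + b)) : PairKod ℂ T (r + 1) δT b := by
  classical
  have hnK : Algebra.trdeg ℂ K = (d + (r + 1) : ℕ) := Pool.Agent.Y184.NT.trdeg_below (K := L) hL
  obtain ⟨y, hy⟩ := Pool.Agent.W636.PG.exists_basis ℂ K _ hnK
  obtain ⟨EK, hEK⟩ := Pool.Agent.W636.PG.exists_duals ℂ K _ y hy
  obtain ⟨ST, q, ρ, t, Et, hq, hρ, ht, hEt, hone, hdown⟩ :=
    down hsup hU hT hL hδV hδT0 hprod hy hEK {1}
  obtain ⟨hq1, hST⟩ := hone rfl
  subst hST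
  subst hq1
  obtain ⟨N, hN, ω, hω, D1, hD1, hind⟩ := hK
  choose l β μ hval hsec using fun j => hdown N (ω j) (sec_j.1 (hω j))
  have hcoord : ∀ j, ω j D1 = _ := fun j => pluri_coord hy hEK (hω j).1 D1
  have hdet0 : (Matrix.of fun i j => D1 i (y j)).det ^ N ≠ 0 := by
    intro h0
    apply hD1 0
    rw [hcoord 0, h0, zero_mul]
  have hne : ∀ j, ω j EK ≠ 0 := by
    intro j h0
    apply hD1 j
    rw [hcoord j, h0, mul_zero]
  have hz : ∀ j, ρ ^ N * algebraMap K L (ω j EK) ≠ 0 := fun j =>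
    mul_ne_zero (pow_ne_zero _ hρ) (by
      rw [Ne, map_eq_zero]
      exact hne j)
  have h2 : ∃ i, μ 0 i ≠ 0 := by
    by_contra hcon
    push Not at hcon
    apply hz 0
    have h3 := hval 0
    rw [one_mul] at h3
    rw [h3]
    refine Finset.sum_eq_zero fun i _ => ?_
    rw [hcon i]
    simp
  obtain ⟨i0, hi0⟩ := h2
  obtain ⟨R, hR⟩ : ∃ R : Set T, R = {τ | ∃ j i, τ = μ j i / μ 0 i0} := ⟨_, rfl⟩
  have hmem : ∀ j, (ρ ^ N * algebraMap K L (ω j EK)) / (μ 0 i0 : L) ∈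
      U ⊔ IntermediateField.adjoin ℂ ((fun τ : T => (τ : L)) '' R) := by
    intro j
    have h3 := hval j
    rw [one_mul] at h3
    rw [h3, Finset.sum_div]
    refine sum_mem fun i _ => ?_
    rw [mul_div_assoc]
    refine mul_mem ((le_sup_left : U ≤ _) (β j i).2) ((le_sup_right :
      IntermediateField.adjoin ℂ ((fun τ : T => (τ : L)) '' R) ≤ _) ?_)
    refine IntermediateField.subset_adjoin _ _ ⟨μ j i / μ 0 i0, ?_, rfl⟩
    rw [hR]
    exact ⟨j, i, rfl⟩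
  have hind' : AlgebraicIndependent ℂ fun j : Fin (d + b) =>
      algebraMap K L (ω j.succ D1 / ω 0 D1) := by
    have h1 : (fun j : Fin (d + b) => algebraMap K L (ω j.succ D1 / ω 0 D1)) =
        (IsScalarTower.toAlgHom ℂ K L) ∘ fun j : Fin (d + b) => ω j.succ D1 / ω 0 D1 := rfl
    rw [h1]
    exact (AlgHom.algebraicIndependent_iff (IsScalarTower.toAlgHom ℂ K L)
      (algebraMap K L).injective).2 hind
  obtain ⟨s, hsR, hs⟩ := many_ratios hU R hind' (fun j => by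
    have h3 : algebraMap K L (ω j.succ D1 / ω 0 D1) =
        ((ρ ^ N * algebraMap K L (ω j.succ EK)) / (μ 0 i0 : L)) /
          ((ρ ^ N * algebraMap K L (ω 0 EK)) / (μ 0 i0 : L)) := by
      have h4 : (μ 0 i0 : L) ≠ 0 := by rwa [Ne, ZeroMemClass.coe_eq_zero]
      rw [div_div_div_cancel_right₀ h4, mul_div_mul_left _ _ (pow_ne_zero _ hρ), ← map_div₀]
      congr 1
      rw [hcoord 0, hcoord j.succ, mul_div_mul_left _ _ hdet0]
    rw [h3]
    exact div_mem (hmem _) (hmem _))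
  rw [hR] at hsR
  choose j i hji using hsR
  obtain ⟨Φ, hΦ⟩ : ∃ Φ : T → (Fin (r + 1) → Derivation ℂ T T) → T, Φ = fun z G =>
    (Matrix.of fun i j => G i (t j)).det ^ N * z := ⟨_, rfl⟩
  have hΦE : ∀ z, Φ z Et = z := by
    intro z
    rw [hΦ]
    have h5 : (Matrix.of fun i j => Et i (t j)) = (1 : Matrix (Fin (r + 1)) (Fin (r + 1)) T) := by
      ext i j
      rw [Matrix.of_apply, hEt, Matrix.one_apply]
    change (Matrix.of fun i j => Et i (t j)).det ^ N * z = z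
    rw [h5, Matrix.det_one, one_pow, one_mul]
  have hsec' : ∀ j i, PairSec ℂ T (r + 1) δT {1} N 0 (Φ (μ j i)) := by
    intro j i
    rw [hΦ]
    exact sec_j.2 (hsec j i)
  refine ⟨N, hN, Fin.cons (Φ (μ 0 i0)) fun l => Φ (μ (j l) (i l)), fun l => ?_, Et, fun l => ?_,
    ?_⟩
  · refine Fin.cases ?_ (fun l => ?_) l
    · exact hsec' 0 i0
    · exact hsec' _ _
  · refine Fin.cases ?_ (fun l => ?_) l
    · rw [Fin.cons_zero, hΦE]
      exact hi0
    · rw [Fin.cons_succ, hΦE]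
      intro h0
      apply hs.ne_zero l
      rw [hji l, h0, zero_div]
  · have h3 : (fun l : Fin b => (Fin.cons (Φ (μ 0 i0)) (fun l => Φ (μ (j l) (i l))) :
        Fin (b + 1) → (Fin (r + 1) → Derivation ℂ T T) → T) l.succ Et /
        (Fin.cons (Φ (μ 0 i0)) (fun l => Φ (μ (j l) (i l))) :
        Fin (b + 1) → (Fin (r + 1) → Derivation ℂ T T) → T) 0 Et) = s := by
      funext l
      rw [Fin.cons_succ, Fin.cons_zero, hΦE, hΦE, hji l]
    rw [h3]
    exact hs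

/-- **The lower bound for the sections of `K_W + Δ`.** -/
theorem sec_up {d r m0 a κ : ℕ} (hm0 : 1 ≤ m0) (hsup : U ⊔ T = ⊤) (hU : Algebra.trdeg ℂ U = d)
    (hT : Algebra.trdeg ℂ T = r) (hL : Algebra.trdeg ℂ L = (d + r : ℕ))
    (hKU : IntermediateField.adjoin K (U : Set L) = ⊤) (X : Fin κ → Finset U)
    (hX : IntermediateField.adjoin ℂ (⋃ i, (X i : Set U)) = ⊤)
    {δ : Place ℂ K → ℝ} {δT : Place ℂ T → ℝ} (hδ0 : ∀ P, 0 ≤ δ P)
    (hδT1 : ∀ P, Divisorial r P → δT P ≤ 1) (hge : BdGe U T (d + r) δ δT)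
    {α : Fin (a + 1) → (Fin d → Derivation ℂ U U) → U}
    (hα : ∀ j, SecU K d m0 X {1} (α j)) {G0 : Fin d → Derivation ℂ U U} (hG0 : α 0 G0 ≠ 0)
    (hind : AlgebraicIndependent ℂ fun j : Fin a => α j.succ G0 / α 0 G0) (ST : Finset T) :
    ∃ Z : Finset K, ∀ m N : ℕ, HasIndep ℂ T r N (PairSec ℂ T r δT ST m 1) →
      HasIndep ℂ K (d + r) ((m / m0 / a + 1) ^ a * N)
        (PairSec ℂ K (d + r) δ Z (m * Module.finrank K L) 1) := by
  classical
  obtain ⟨SU, hSU0, hSU⟩ := many_sections hm0 hU X hα hG0 hind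
  obtain ⟨Z, -, hZ⟩ := norm_prod (K := K) U T hsup hU hT hL hKU X hX SU (insert 1 ST) hSU0
    ⟨1, Finset.mem_insert_self _ _, one_ne_zero⟩
  refine ⟨Z, fun m N hN => hZ δ δT hδ0 hδT1 hge m _ N (hSU m) ?_⟩
  obtain ⟨ω, hωi, hω⟩ := hN
  refine ⟨ω, hωi, fun l => ⟨(hω l).1, fun v hv G hG => ?_⟩⟩
  rcases (hω l).2 v hv G hG with h | ⟨s, hs, hs0, h⟩
  · exact Or.inl h
  · exact Or.inr ⟨s, Finset.mem_insert_of_mem hs, hs0, h⟩

/-- **Transfer of nonvanishing.** -/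
theorem nonvan_transfer {d r m0 κ : ℕ} (hm0 : 1 ≤ m0) (hsup : U ⊔ T = ⊤)
    (hU : Algebra.trdeg ℂ U = d) (hT : Algebra.trdeg ℂ T = (r + 1 : ℕ))
    (hL : Algebra.trdeg ℂ L = (d + (r + 1) : ℕ))
    (hKU : IntermediateField.adjoin K (U : Set L) = ⊤) (X : Fin κ → Finset U)
    (hX : IntermediateField.adjoin ℂ (⋃ i, (X i : Set U)) = ⊤)
    {δ : Place ℂ K → ℝ} (hδ0 : ∀ P, 0 ≤ δ P)
    {δV : Place ℂ L → ℝ} (hδV : IsPull δ δV) {δT : Place ℂ T → ℝ} (hδT0 : ∀ P, 0 ≤ δT P)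
    (hδT1 : ∀ P, Divisorial (r + 1) P → δT P ≤ 1) (hprod : IsProd U T (d + (r + 1)) δV δT)
    (hge : BdGe U T (d + (r + 1)) δ δT)
    {α : (Fin d → Derivation ℂ U U) → U} (hα : SecU K d m0 X {1} α) (hα0 : α ≠ 0) :
    (PairNeg ℂ K (d + (r + 1)) δ ↔ PairNeg ℂ T (r + 1) δT) ∧
    (PairKod ℂ K (d + (r + 1)) δ 0 ↔ PairKod ℂ T (r + 1) δT 0) := by
  have hpos : 0 < Module.finrank K L := Module.finrank_pos
  obtain ⟨G0, hG0⟩ := Function.ne_iff.1 hα0
  have hind : AlgebraicIndependent ℂ fun j : Fin 0 =>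
      (fun _ : Fin (0 + 1) => α) j.succ G0 / (fun _ : Fin (0 + 1) => α) 0 G0 :=
    (algebraicIndependent_empty_type_iff).2 (algebraMap ℂ U).injective
  constructor
  · constructor
    · intro hK ST
      obtain ⟨Z, hZ⟩ := sec_up (K := K) hm0 hsup hU hT hL hKU X hX hδ0 hδT1 hge
        (α := fun _ : Fin (0 + 1) => α) (fun _ => hα) (G0 := G0) hG0 hind ST
      obtain ⟨M, hM⟩ := hK Z
      refine ⟨M, fun m hm hi => ?_⟩
      have h1 := hZ m 1 hi
      rw [pow_zero, one_mul] at h1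
      exact hM _ (hm.trans (Nat.le_mul_of_pos_right _ hpos)) h1
    · intro hY S
      obtain ⟨ST, -, hST⟩ := sec_down (K := K) hsup hU hT hL hδV hδT0 hprod S
      obtain ⟨M, hM⟩ := hY ST
      exact ⟨M, fun m hm hi => hM m hm (hST m hi)⟩
  · constructor
    · intro hK
      obtain ⟨m, hm, hi⟩ := kod_zero.1 hK
      obtain ⟨ST, h1, hST⟩ := sec_down (K := K) hsup hU hT hL hδV hδT0 hprod {1}
      rw [h1 rfl] at hST
      exact kod_zero.2 ⟨m, hm, hST m hi⟩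
    · intro hY
      have h1 := kod_prod (K := K) U T hsup hU hT hL hKU X hX hδ0 hδT1 hge hm0
        (α := fun _ : Fin (0 + 1) => α) (fun _ => hα) (G0 := G0) hG0 hind hY
      exact h1

/-- **Transfer of abundance.** -/
theorem abu_transfer {d r m0 κ : ℕ} (hm0 : 1 ≤ m0) (hsup : U ⊔ T = ⊤)
    (hU : Algebra.trdeg ℂ U = d) (hT : Algebra.trdeg ℂ T = (r + 1 : ℕ))
    (hL : Algebra.trdeg ℂ L = (d + (r + 1) : ℕ))
    (hKU : IntermediateField.adjoin K (U : Set L) = ⊤) (X : Fin κ → Finset U)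
    (hX : IntermediateField.adjoin ℂ (⋃ i, (X i : Set U)) = ⊤)
    {δ : Place ℂ K → ℝ} (hδ0 : ∀ P, 0 ≤ δ P) (hbd : DivBd (d + (r + 1)) δ)
    {δV : Place ℂ L → ℝ} (hδV : IsPull δ δV) {δT : Place ℂ T → ℝ} (hδT0 : ∀ P, 0 ≤ δT P)
    (hδT1 : ∀ P, Divisorial (r + 1) P → δT P ≤ 1) (hprod : IsProd U T (d + (r + 1)) δV δT)
    (hge : BdGe U T (d + (r + 1)) δ δT)
    {α : Fin (d + 1) → (Fin d → Derivation ℂ U U) → U}
    (hα : ∀ j, SecU K d m0 X {1} (α j)) {G0 : Fin d → Derivation ℂ U U} (hG0 : α 0 G0 ≠ 0)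
    (hind : AlgebraicIndependent ℂ fun j : Fin d => α j.succ G0 / α 0 G0) (b : ℕ) :
    (PairKod ℂ K (d + (r + 1)) δ (d + b) ↔ PairKod ℂ T (r + 1) δT b) ∧
    (PairNum ℂ K (d + (r + 1)) δ (d + b) ↔ PairNum ℂ T (r + 1) δT b) := by
  refine ⟨⟨kod_down hsup hU hT hL hδV hδT0 hprod, fun hY => kod_prod (K := K) U T hsup hU hT hL
    hKU X hX hδ0 hδT1 hge hm0 hα hG0 hind hY⟩, ⟨fun hK ST => ?_, fun hY =>
    num_prod (K := K) U T hsup hU hT hL hbd hδV hδT0 hprod hY⟩⟩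
  obtain ⟨Z, hZ⟩ := sec_up (K := K) hm0 hsup hU hT hL hKU X hX hδ0 hδT1 hge hα hG0 hind ST
  obtain ⟨C, hC⟩ := hK Z
  have hpos : 0 < Module.finrank K L := Module.finrank_pos
  refine ⟨C * Module.finrank K L ^ (d + b) * (m0 * d) ^ d, fun m N hm hN => ?_⟩
  have h1 := hC _ _ (Nat.mul_pos hm hpos) (hZ m N hN)
  have h2 : m ^ d ≤ (m0 * d) ^ d * (m / m0 / d + 1) ^ d := by
    rcases Nat.eq_zero_or_pos d with hd | hd
    · rw [hd]
      simp
    rw [← mul_pow]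
    refine Nat.pow_le_pow_left ?_ d
    rw [Nat.div_div_eq_div_mul]
    exact (Nat.lt_mul_div_succ m (Nat.mul_pos hm0 hd)).le
  have hmd : 0 < m ^ d := Nat.pow_pos hm
  refine le_of_mul_le_mul_left (a := m ^ d) ?_ hmd
  calc m ^ d * N ≤ (m0 * d) ^ d * (m / m0 / d + 1) ^ d * N := Nat.mul_le_mul_right _ h2
    _ = (m0 * d) ^ d * ((m / m0 / d + 1) ^ d * N) := by ring
    _ ≤ (m0 * d) ^ d * (C * (m * Module.finrank K L) ^ (d + b)) := Nat.mul_le_mul_left _ h1
    _ = m ^ d * (C * Module.finrank K L ^ (d + b) * (m0 * d) ^ d * m ^ b) := by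
      rw [mul_pow m, pow_add m]
      ring

end

end Pool.Agent.U192.PT
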