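import Pool.Agent.U192.PE.Kod
import Pool.Agent.U192.PE.Field

/-!
The ratios of the forms upstairs are algebraic over the ratios of the sections downstairs.
-/

set_option autoImplicit false
set_option linter.overlappingInstances false
set_option linter.unusedSectionVars false

open FF Pool.Agent.W602.GT Pool.Agent.W603.LV Pool.Agent.W619.PQ Pool.Agent.Y172
open Pool.Agent.W619.TW (HasIndep)
open Pool.Agent.Y174 (PairSec PairKod PairNum IsPull IsPullFib LiesOn)

namespace Pool.Agent.U192.PT

open Pool.Agent.U192.NM (det_one' pow_form pow_form_pluri der_norm trdeg_adj)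
open Pool.Agent.U192.PN (pow_form_ge)
open Pool.Agent.U192.PE

section

variable {K L : Type} [Field K] [Field L] [Algebra ℂ K] [Algebra ℂ L]
  [Algebra K L] [IsScalarTower ℂ K L] [FiniteDimensional K L]

/-- derivations which are equal on a subfield of finite index -/
theorem der_eq_of_alg {n : ℕ} (hnK : Algebra.trdeg ℂ K = n) {D1 D2 : Derivation ℂ L L}
    (h : ∀ z : K, D1 (algebraMap K L z) = D2 (algebraMap K L z)) : D1 = D2 := by
  obtain ⟨y, hy⟩ := Pool.Agent.W636.PG.exists_basis ℂ K n hnK
  have hyL : IsTranscendenceBasis ℂ (fun j => algebraMap K L (y j)) := hy.algebraMap_comp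
  obtain ⟨E, hE⟩ := Pool.Agent.W636.PG.exists_duals ℂ L n _ hyL
  rw [Pool.Agent.W308.PG.YLOC.expandK (k := ℂ) (K := L) _ E hyL hE D1,
    Pool.Agent.W308.PG.YLOC.expandK (k := ℂ) (K := L) _ E hyL hE D2]
  refine Finset.sum_congr rfl fun i _ => ?_
  rw [h]

/-- a function which is killed by the lifts of all derivations which kill `S` -/
theorem alg_of_kill {n : ℕ} (hnK : Algebra.trdeg ℂ K = n) {S : Set K} {x : L}
    (_hS : ∀ z ∈ S, z ∈ S)
    (h : ∀ G : Derivation ℂ K K, (∀ z ∈ S, G z = 0) → ∀ G' : Derivation ℂ L L,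
      (∀ z : K, G' (algebraMap K L z) = algebraMap K L (G z)) → G' x = 0) :
    IsAlgebraic ((IntermediateField.adjoin ℂ S).map (IsScalarTower.toAlgHom ℂ K L)) x := by
  classical
  obtain ⟨F0, hF0⟩ : ∃ F0 : IntermediateField ℂ L,
    F0 = (IntermediateField.adjoin ℂ S).map (IsScalarTower.toAlgHom ℂ K L) := ⟨_, rfl⟩
  rw [← hF0]
  by_contra htr
  have hL0 : CharZero L := charZero_of_injective_algebraMap (algebraMap ℂ L).injective
  have hK0 : CharZero K := charZero_of_injective_algebraMap (algebraMap ℂ K).injective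
  have hF00 : CharZero F0 := charZero_of_injective_algebraMap (algebraMap ℂ F0).injective
  obtain ⟨D, hD⟩ := Pool.Agent.W619.Y.exists_der (k := F0) (L := L) (u := x) htr
  let b := Module.finBasis K L
  -- the components of the derivation
  let g : Fin (Module.finrank K L) → Derivation ℂ K K := fun i =>
    { toFun := fun z => b.repr (D (algebraMap K L z)) i
      map_add' := fun z w => by
        rw [map_add, map_add, map_add]
        rfl
      map_smul' := fun c z => by
        have h1 : D (algebraMap K L (c • z)) = algebraMap ℂ K c • D (algebraMap K L z) := by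
          rw [Algebra.smul_def, map_mul, D.leibniz]
          have h2 : algebraMap K L (algebraMap ℂ K c) = algebraMap F0 L (algebraMap ℂ F0 c) := by
            rw [← IsScalarTower.algebraMap_apply ℂ K L]
            rfl
          rw [h2, D.map_algebraMap, smul_zero, add_zero, ← h2]
          rw [smul_eq_mul, Algebra.smul_def]
        rw [h1, map_smul, RingHom.id_apply, Finsupp.smul_apply, Algebra.smul_def c, smul_eq_mul]
      map_one_eq_zero' := by
        change b.repr (D (algebraMap K L 1)) i = 0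
        rw [map_one, D.map_one_eq_zero, map_zero]
        rfl
      leibniz' := fun z w => by
        change b.repr (D (algebraMap K L (z * w))) i = z • b.repr (D (algebraMap K L w)) i +
          w • b.repr (D (algebraMap K L z)) i
        have h1 : D (algebraMap K L (z * w)) = z • D (algebraMap K L w) +
            w • D (algebraMap K L z) := by
          rw [map_mul, D.leibniz, smul_eq_mul, smul_eq_mul, Algebra.smul_def, Algebra.smul_def]
        rw [h1, map_add, map_smul, map_smul]
        rfl }
  have hg : ∀ i, ∀ z ∈ S, g i z = 0 := by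
    intro i z hz
    have h1 : algebraMap K L z ∈ F0 := by
      rw [hF0, IntermediateField.mem_map]
      exact ⟨z, IntermediateField.subset_adjoin _ _ hz, rfl⟩
    change b.repr (D (algebraMap K L z)) i = 0
    have h2 : D (algebraMap K L z) = 0 := D.map_algebraMap (⟨_, h1⟩ : F0)
    rw [h2, map_zero]
    rfl
  choose g' hg' using fun i => exists_lift (L := L) hnK (g i)
  have h1 : D.restrictScalars ℂ = ∑ i, b i • g' i := by
    refine der_eq_of_alg (K := K) hnK (fun z => ?_)
    change D (algebraMap K L z) = _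
    rw [Pool.Agent.W308.PG.YLOC.der_sum_apply]
    have h2 := b.sum_repr (D (algebraMap K L z))
    conv_lhs => rw [← h2]
    refine Finset.sum_congr rfl fun i _ => ?_
    change _ = b i • g' i (algebraMap K L z)
    rw [hg', smul_eq_mul, Algebra.smul_def, mul_comm]
    rfl
  have h2 : D x = 0 := by
    change D.restrictScalars ℂ x = 0
    rw [h1, Pool.Agent.W308.PG.YLOC.der_sum_apply]
    refine Finset.sum_eq_zero fun i _ => ?_
    change b i • g' i x = 0
    rw [h (g i) (hg i) (g' i) (hg' i), smul_zero]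
  rw [hD] at h2
  exact one_ne_zero h2

end

section

variable {K M L : Type} [Field K] [Field M] [Field L]
  [Algebra ℂ K] [Algebra ℂ M] [Algebra ℂ L] [Algebra K M] [Algebra K L] [Algebra M L]
  [IsScalarTower ℂ K M] [IsScalarTower ℂ K L] [IsScalarTower ℂ M L]
  [IsScalarTower K M L]
  [FiniteDimensional K M] [FiniteDimensional K L]
  [Algebra.EssFiniteType ℂ K] [Algebra.EssFiniteType ℂ L]

/-- **The ratios of the forms are algebraic over the ratios of the sections downstairs.** -/
theorem alg_of_regS {d : ℕ} (f : Module.Basis (Fin d) K M) {δ : Place ℂ K → ℝ} {n m a : ℕ}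
    (hm : 1 ≤ m) (hn : Algebra.trdeg ℂ L = n) {θ : Fin (a + 1) → (Fin n → Derivation ℂ L L) → L}
    (hθ : ∀ l, IsPluri m (θ l))
    (hr : ∀ l, RegS δ M n m {1} (fun j => algebraMap M L (f j)) (θ l))
    {D0 : Fin n → Derivation ℂ L L} (hD0 : θ 0 D0 ≠ 0) (j : Fin a) :
    IsAlgebraic ((IntermediateField.adjoin ℂ (ratios K n δ)).map (IsScalarTower.toAlgHom ℂ K L))
      (θ j.succ D0 / θ 0 D0) := by
  classical
  have hcK : CharZero K := charZero_of_injective_algebraMap (algebraMap ℂ K).injective
  -- the Galois closure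
  let Ω := IntermediateField.normalClosure K L (AlgebraicClosure L)
  have hfin : FiniteDimensional K Ω := inferInstance
  have hnorm : Normal K Ω := inferInstance
  have hgal : IsGalois K Ω := IsGalois.mk
  let ik : Algebra ℂ Ω := ((algebraMap L Ω).comp (algebraMap ℂ L)).toAlgebra
  let im : Algebra M Ω := ((algebraMap L Ω).comp (algebraMap M L)).toAlgebra
  have ht1 : IsScalarTower M L Ω := IsScalarTower.of_algebraMap_eq fun _ => rfl
  have ht2 : IsScalarTower ℂ L Ω := IsScalarTower.of_algebraMap_eq fun _ => rfl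
  have ht3 : IsScalarTower ℂ K Ω := IsScalarTower.of_algebraMap_eq fun c => by
    change algebraMap L Ω (algebraMap ℂ L c) = _
    rw [IsScalarTower.algebraMap_apply ℂ K L, ← IsScalarTower.algebraMap_apply K L Ω]
  have ht4 : IsScalarTower ℂ M Ω := IsScalarTower.of_algebraMap_eq fun c => by
    change algebraMap L Ω (algebraMap ℂ L c) = algebraMap L Ω (algebraMap M L (algebraMap ℂ M c))
    rw [← IsScalarTower.algebraMap_apply ℂ M L]
  have ht5 : IsScalarTower K M Ω := IsScalarTower.of_algebraMap_eq fun c => by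
    change _ = algebraMap L Ω (algebraMap M L (algebraMap K M c))
    rw [← IsScalarTower.algebraMap_apply K M L, ← IsScalarTower.algebraMap_apply K L Ω]
  have hcΩ : CharZero Ω := charZero_of_injective_algebraMap (algebraMap ℂ Ω).injective
  have hfdL : FiniteDimensional L Ω := FiniteDimensional.right K L Ω
  have hfM : FiniteDimensional M L := FiniteDimensional.right K M L
  obtain ⟨ε, hε0, hε⟩ := norm_reg (k := ℂ) (K := K) (M := M) L Ω f
  obtain ⟨Z, hZ1, hZ⟩ := hε {1} ⟨1, Finset.mem_singleton_self _, one_ne_zero⟩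
  rw [hZ1 rfl] at hZ
  have hnK : Algebra.trdeg ℂ K = n := Pool.Agent.Y184.NT.trdeg_below (K := L) hn
  obtain ⟨y, D, hy, hD⟩ := exists_crd hnK
  choose D' hD' using fun i => exists_lift (L := L) hnK (D i)
  have hyL : IsTranscendenceBasis ℂ (fun j => algebraMap K L (y j)) := hy.algebraMap_comp
  have hDL := lift_dual hD hD'
  have hθD : θ 0 D' ≠ 0 := by
    intro h0
    apply hD0
    rw [pluri_coord hyL hDL (hθ 0) D0, h0, mul_zero]
  obtain ⟨x, hx⟩ : ∃ x : Fin a → L, ∀ j, x j = θ j.succ D' / θ 0 D' := ⟨_, fun _ => rfl⟩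
  have hxD : ∀ j, θ j.succ D0 / θ 0 D0 = x j := by
    intro j
    have h1 := pluri_coord hyL hDL (hθ 0) D0
    have h2 := pluri_coord hyL hDL (hθ j.succ) D0
    have h3 : (Matrix.of fun i j => D0 i (algebraMap K L (y j)) :
        Matrix (Fin n) (Fin n) L).det ^ m ≠ 0 := by
      intro h0
      apply hD0
      rw [h1, h0, zero_mul]
    rw [hx, h1, h2]
    field_simp
  obtain ⟨q, hq⟩ : ∃ q : ℕ, q = Module.finrank K L := ⟨_, rfl⟩
  have hq1 : 1 ≤ q := by
    rw [hq]
    exact Module.finrank_pos
  -- the combinations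
  let ι : Type := {c : Fin (a + 1) → ℂ // ∑ l, c l • θ l D' ≠ 0}
  obtain ⟨ϑ, hϑ⟩ : ∃ ϑ : ι → (Fin n → Derivation ℂ L L) → L, ∀ j, ϑ j =
      fun G => ∑ l, j.1 l • θ l G := ⟨_, fun _ => rfl⟩
  have hϑp : ∀ j, IsPluri m (ϑ j) := by
    intro j
    rw [hϑ]
    exact pluri_comb hθ _
  have hϑr : ∀ j, RegS δ M n m {1} (fun j => algebraMap M L (f j)) (ϑ j) := by
    intro j
    rw [hϑ]
    exact RegS.comb hr _
  have hϑ0 : ∀ j, ϑ j D' ≠ 0 := by
    intro j
    rw [hϑ]
    exact j.2
  obtain ⟨T, hT⟩ : ∃ T : ι → K, ∀ i, T i =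
      Algebra.norm K (ϑ i D') * ε ^ (m * Module.finrank M L) := ⟨_, fun _ => rfl⟩
  have hT0 : ∀ i, T i ≠ 0 := by
    intro i
    rw [hT]
    refine mul_ne_zero ?_ (pow_ne_zero _ hε0)
    rw [Ne, Algebra.norm_eq_zero_iff]
    exact hϑ0 i
  -- regularity
  have hTreg : ∀ i, ∀ P : Place ℂ K, Divisorial n P → ∀ G : Fin n → Derivation ℂ K K,
      (∀ i, DerReg P (G i)) → pow_form (m * q) y (T i) G = 0 ∨
        -(((m * q : ℕ) : ℝ) * δ P) ≤ P.ord (pow_form (m * q) y (T i) G) := by
    intro i P hP
    obtain ⟨yP, DP, i0, hl⟩ := exists_loc hnK hP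
    refine pow_form_ge hl ?_
    choose DP' hDP' using fun i => exists_lift (L := L) hnK (DP i)
    obtain ⟨B, hB⟩ : ∃ B : Matrix (Fin n) (Fin n) K, B = Matrix.of fun i j => DP i (y j) :=
      ⟨_, rfl⟩
    have h1 : ϑ i DP' = algebraMap K L (B.det ^ m) * ϑ i D' := by
      rw [pluri_coord hyL hDL (hϑp i) DP', map_pow, RingHom.map_det]
      congr 3
      rw [hB]
      ext i j
      rw [Matrix.of_apply, RingHom.mapMatrix_apply, Matrix.map_apply, Matrix.of_apply]
      exact hDP' i (y j)
    have hdualP := lift_dual hl.dual hDP'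
    have hθP : ϑ i DP' ≠ 0 := by
      intro h0
      apply hϑ0 i
      rw [pluri_coord (hl.bas.algebraMap_comp (A := L)) hdualP (hϑp i) D', h0, mul_zero]
    obtain ⟨z, hz, hz0, h2⟩ := hZ δ n m hn (ϑ i) (hϑp i) (hϑr i) P hP yP DP i0 hl DP' hDP' hθP
    rw [Finset.mem_singleton] at hz
    rw [hz, P.ord_one, Int.cast_zero, zero_sub] at h2
    have h3 : pow_form (m * q) y (T i) DP =
        Algebra.norm K (ϑ i DP') * ε ^ (m * Module.finrank M L) := by
      have h5 : Algebra.norm K (algebraMap K L (B.det ^ m) * ϑ i D') =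
          (B.det ^ m) ^ q * Algebra.norm K (ϑ i D') := by
        rw [MonoidHom.map_mul, Algebra.norm_algebraMap, ← hq]
      rw [pow_form, ← hB, hT, h1, h5, ← pow_mul, mul_assoc]
    right
    rw [h3, hq]
    exact h2
  -- the ratios
  have h10 : ∑ l, (Pi.single 0 1 : Fin (a + 1) → ℂ) l • θ l D' = θ 0 D' := by
    rw [Finset.sum_eq_single 0]
    · rw [Pi.single_eq_same, one_smul]
    · intro b _ hb
      rw [Pi.single_eq_of_ne hb, zero_smul]
    · intro h
      exact absurd (Finset.mem_univ _) h
  let i1 : ι := ⟨Pi.single 0 1, by rw [h10]; exact hθD⟩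
  have hi1 : ϑ i1 D' = θ 0 D' := by
    rw [hϑ]
    exact h10
  have hxT : ∀ j, ∀ c : ℂ, algebraMap ℂ L c - x j ≠ 0 → ∃ i : ι,
      ϑ i D' = (algebraMap ℂ L c - x j) * θ 0 D' := by
    intro j c hc
    have h1 : ∑ l, (fun l => c * (Pi.single 0 1 : Fin (a + 1) → ℂ) l -
        (Pi.single j.succ 1 : Fin (a + 1) → ℂ) l) l • θ l D' =
        (algebraMap ℂ L c - x j) * θ 0 D' := by
      have h2 : ∑ l, (Pi.single j.succ 1 : Fin (a + 1) → ℂ) l • θ l D' = θ j.succ D' := by
        rw [Finset.sum_eq_single j.succ]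
        · rw [Pi.single_eq_same, one_smul]
        · intro b _ hb
          rw [Pi.single_eq_of_ne hb, zero_smul]
        · intro h
          exact absurd (Finset.mem_univ _) h
      have h3 : ∑ l, (c * (Pi.single 0 1 : Fin (a + 1) → ℂ) l -
          (Pi.single j.succ 1 : Fin (a + 1) → ℂ) l) • θ l D' =
          c • ∑ l, (Pi.single 0 1 : Fin (a + 1) → ℂ) l • θ l D' -
          ∑ l, (Pi.single j.succ 1 : Fin (a + 1) → ℂ) l • θ l D' := by
        rw [Finset.smul_sum, ← Finset.sum_sub_distrib]
        refine Finset.sum_congr rfl fun l _ => ?_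
        rw [sub_smul, mul_smul]
      rw [h3, h10, h2, hx, Algebra.smul_def]
      field_simp
    refine ⟨⟨fun l => c * (Pi.single 0 1 : Fin (a + 1) → ℂ) l -
        (Pi.single j.succ 1 : Fin (a + 1) → ℂ) l, ?_⟩, ?_⟩
    · rw [h1]
      exact mul_ne_zero hc hθD
    · rw [hϑ]
      exact h1
  have hval : ∀ t, pow_form (m * q) y t D = t := by
    intro t
    rw [pow_form, det_one' hD, one_pow, one_mul]
  have hTr : ∀ i i', T i' / T i ∈ ratios K n δ := by
    intro i i'
    have hsec : ∀ i, PairSec ℂ K n δ {1} (m * q) 0 (pow_form (m * q) y (T i)) := by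
      intro i
      refine ⟨pow_form_pluri _ y _, fun P hP G hG => ?_⟩
      rcases hTreg i P hP G hG with h | h
      · exact Or.inl h
      · refine Or.inr ⟨1, Finset.mem_singleton_self _, one_ne_zero, ?_⟩
        simp only [Nat.cast_zero, zero_mul, zero_sub]
        exact h
    refine ⟨m * q, _, _, D, Nat.mul_pos hm hq1, hsec i, hsec i', ?_, ?_⟩
    · rw [hval]
      exact hT0 _
    · rw [hval, hval]
  -- the derivations
  have hkill : ∀ G : Derivation ℂ K K, (∀ z ∈ ratios K n δ, G z = 0) →
      ∀ G' : Derivation ℂ L L, (∀ z : K, G' (algebraMap K L z) = algebraMap K L (G z)) →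
      ∀ j, G' (x j) = 0 := by
    intro G hG G' hG' j
    obtain ⟨G'', hG''⟩ := exists_lift (L := Ω) hn G'
    have h1 : G'' (algebraMap L Ω (x j)) = 0 := by
      refine der_norm (K := K) G'' _ fun c => ?_
      have hGK : ∀ z : K, G'' (algebraMap K Ω z) = algebraMap K Ω (G z) := by
        intro z
        rw [IsScalarTower.algebraMap_apply K L Ω, hG'', hG',
          ← IsScalarTower.algebraMap_apply K L Ω]
      rw [hGK]
      by_cases h0 : algebraMap ℂ L c - x j = 0
      · have h2 : algebraMap ℂ Ω c - algebraMap L Ω (x j) = 0 := by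
          rw [IsScalarTower.algebraMap_apply ℂ L Ω, ← map_sub, h0, map_zero]
        rw [h2, Algebra.norm_zero, map_zero, map_zero]
      · obtain ⟨i, hi⟩ := hxT j c h0
        obtain ⟨u, hu⟩ : ∃ u, u = Algebra.norm K (algebraMap ℂ L c - x j) := ⟨_, rfl⟩
        have hu0 : u ≠ 0 := by
          rw [hu, Ne, Algebra.norm_eq_zero_iff]
          exact h0
        have h2 : T i / T i1 = u := by
          rw [div_eq_iff (hT0 i1), hT, hT, hi, hi1, map_mul, ← hu]
          ring
        have h6 : G u = 0 := by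
          rw [← h2]
          exact hG _ (hTr i1 i)
        have h7 : Algebra.norm K (algebraMap ℂ Ω c - algebraMap L Ω (x j)) =
            u ^ Module.finrank L Ω := by
          rw [IsScalarTower.algebraMap_apply ℂ L Ω, ← map_sub,
            ← Algebra.norm_norm (R := K) (S := L) (A := Ω), Algebra.norm_algebraMap, map_pow, hu]
        rw [h7, G.leibniz_pow, h6, smul_zero, smul_zero, map_zero]
    rw [hG''] at h1
    exact (map_eq_zero _).1 h1
  rw [hxD]
  refine alg_of_kill (K := K) (L := L) hnK (fun z hz => ?_) (fun G hG G' hG' => hkill G hG G' hG' j)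
  exact hz

end

end Pool.Agent.U192.PT
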