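import Pool.Agent.U192.PT.Many
import Pool.Agent.W904.PG.T2

/-!
The sections on a variety dominated by a product `X × Y` give sections on `Y`.
-/

set_option autoImplicit false
set_option linter.overlappingInstances false
set_option linter.unusedSectionVars false

open FF IntermediateField Pool.Agent.W619.PQ Pool.Agent.W603.LV Pool.Agent.Y172
open Pool.Agent.W602.GT (Divisorial DerReg IsPluri KodGe)
open Pool.Agent.W619.TW (HasIndep RR)
open Pool.Agent.Y174 (PairSec PairKod PairNum IsPull IsPullFib LiesOn resPl)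
open Pool.Agent.U192.PB
open Pool.Agent.U192.NM (dg pol)
open Pool.Agent.U192.PE
open Pool.Agent.U192.PN (IsProd DivBd fib_of num_fib easy_pair divBd_pull exists_prod prod_ord
  HorReg PReg PairNeg horReg_ge coef_sec)

namespace Pool.Agent.U192.PT

section

variable {L : Type} [Field L] [Algebra ℂ L] {U T : IntermediateField ℂ L} {d n : ℕ}

/-- **Base change for sections.** -/
theorem base_values [Algebra.EssFiniteType ℂ L] (hsup : U ⊔ T = ⊤) (hU : Algebra.trdeg ℂ U = d)
    (hT : Algebra.trdeg ℂ T = n) (hL : Algebra.trdeg ℂ L = (d + n : ℕ))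
    {δU : Place U L → ℝ} {δT : Place ℂ T → ℝ}
    (hδ0 : ∀ Q : Place U L, Divisorial n Q → (∀ τ : T, Q.Reg (τ : L)) → δU Q ≤ 0)
    (hδ1 : ∀ (Q : Place U L) (v : Place ℂ T), Divisorial n Q → Divisorial n v →
      (∀ τ : T, Q.ord (τ : L) = v.ord τ) → δU Q ≤ δT v)
    {t : Fin n → T} (ht : IsTranscendenceBasis ℂ t)
    {E : Fin n → Derivation U L L} {E' : Fin n → Derivation ℂ T T}
    (hE : ∀ i j, E i (t j : L) = if i = j then 1 else 0)
    (hE' : ∀ i j, E' i (t j) = if i = j then 1 else 0)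
    (hEE : ∀ i (z : T), E i (z : L) = (E' i z : L))
    {S : Finset L} {ST : Finset T} {q : L} (hq0 : q ≠ 0) (hqS : ∀ s ∈ S, q * s ∈ RR T U)
    (hS : ∀ s ∈ S, ∃ (r : ℕ) (β : Fin r → U) (μ : Fin r → T), (∀ i, μ i ∈ ST) ∧
      q * s = ∑ i, (β i : L) * (μ i : L))
    {m : ℕ} {ω : (Fin n → Derivation U L L) → L} (hω : PairSec U L n δU S m 1 ω) :
    ∃ (l : ℕ) (β : Fin l → U) (μ : Fin l → T), q * ω E = ∑ i, (β i : L) * (μ i : L) ∧
      ∀ i, PairSec ℂ T n δT ST m 1 (fun G => (Matrix.of fun i j => G i (t j)).det ^ m * μ i) := by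
  classical
  have h := lin_of hsup hU hT hL
  have hbas := basis_over hsup hU hL ht
  have hring : q * ω E ∈ RR T U := by
    refine mem_ring hsup hU hL ht hE hEE fun Q hQ hQT hQE => ?_
    have h1 := hω.2 Q hQ E fun i => hQE i
    rcases h1 with h1 | ⟨s, hs, hs0, h1⟩
    · left
      rw [h1, mul_zero]
    · by_cases h2 : ω E = 0
      · left
        rw [h2, mul_zero]
      have h3 := (reg_ring hQT (hqS s hs)).resolve_left (mul_ne_zero hq0 hs0)
      rw [Q.ord_mul hq0 hs0] at h3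
      right
      rw [Q.ord_mul hq0 h2]
      have h4 := mul_nonpos_of_nonneg_of_nonpos (Nat.cast_nonneg (α := ℝ) m) (hδ0 Q hQ hQT)
      have h5 : (Q.ord s : ℝ) ≤ Q.ord (ω E) := by
        push_cast at h1
        linarith
      have h6 : Q.ord s ≤ Q.ord (ω E) := by exact_mod_cast h5
      linarith
  obtain ⟨l, β, μ, hβ, hf⟩ := exists_expand hring
  exact ⟨l, β, μ, hf, fun i => coef_sec h ht hbas hE hE' hEE hq0 hS
    (fun v hv => hδ1 (UF h v) v (UF_div h hv) hv fun τ => UU_M h v τ) hω hβ hf i⟩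

end

section

variable {K L : Type} [Field K] [Field L] [Algebra ℂ K] [Algebra ℂ L] [Algebra K L]
  [IsScalarTower ℂ K L] [FiniteDimensional K L] {U T : IntermediateField ℂ L}
  [Algebra.EssFiniteType ℂ U] [Algebra.EssFiniteType ℂ T]

/-- **The sections on `W` give sections on `Y`.** -/
theorem down {d r : ℕ} (hsup : U ⊔ T = ⊤) (hU : Algebra.trdeg ℂ U = d)
    (hT : Algebra.trdeg ℂ T = (r + 1 : ℕ)) (hL : Algebra.trdeg ℂ L = (d + (r + 1) : ℕ))
    {δ : Place ℂ K → ℝ}
    {δV : Place ℂ L → ℝ} (hδV : IsPull δ δV) {δT : Place ℂ T → ℝ} (hδT0 : ∀ P, 0 ≤ δT P)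
    (hprod : IsProd U T (d + (r + 1)) δV δT)
    {y : Fin (d + (r + 1)) → K} (hy : IsTranscendenceBasis ℂ y)
    {EK : Fin (d + (r + 1)) → Derivation ℂ K K}
    (hEK : ∀ i j, EK i (y j) = if i = j then 1 else 0) (S : Finset K) :
    ∃ (ST : Finset T) (q ρ : L) (t : Fin (r + 1) → T) (Et : Fin (r + 1) → Derivation ℂ T T),
      q ≠ 0 ∧ ρ ≠ 0 ∧ IsTranscendenceBasis ℂ t ∧ (∀ i j, Et i (t j) = if i = j then 1 else 0) ∧
      (S = {1} → q = 1 ∧ ST = {1}) ∧
      ∀ (m : ℕ) (ω : (Fin (d + (r + 1)) → Derivation ℂ K K) → K),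
      PairSec ℂ K (d + (r + 1)) δ S m 1 ω → ∃ (l : ℕ) (β : Fin l → U) (μ : Fin l → T),
        q * (ρ ^ m * algebraMap K L (ω EK)) = ∑ i, (β i : L) * (μ i : L) ∧
        ∀ i, PairSec ℂ T (r + 1) δT ST m 1
          (fun G => (Matrix.of fun i j => G i (t j)).det ^ m * μ i) := by
  classical
  have hessL : Algebra.EssFiniteType ℂ L := ess_prod U T hsup
  have hessK : Algebra.EssFiniteType ℂ K := Pool.Agent.TH466.QG.ess_below (K := L)
  have hnK : Algebra.trdeg ℂ K = (d + (r + 1) : ℕ) := Pool.Agent.Y184.NT.trdeg_below (K := L) hL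
  have hU0 : CharZero U := charZero_of_injective_algebraMap (algebraMap ℂ U).injective
  have hδV0 : ∀ Q : Place ℂ L, 0 ≤ δV Q := by
    intro Q
    obtain ⟨e, P, hP⟩ := Pool.Agent.W73.PG.PULL.exists_over' (K := K) Q
    rw [hδV P Q e hP]
    exact le_max_left _ _
  obtain ⟨x, hx⟩ := Pool.Agent.W636.PG.exists_basis ℂ U d hU
  obtain ⟨t, ht⟩ := Pool.Agent.W636.PG.exists_basis ℂ T (r + 1) hT
  have hbas := basis_over hsup hU hL ht
  have hxt := Pool.Agent.Y174.basis_append hx hbas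
  obtain ⟨EL, hEL⟩ := Pool.Agent.W636.PG.exists_duals ℂ L (d + (r + 1)) _ hxt
  obtain ⟨E, E', hE, hE', hEE⟩ := exists_der_along hsup hU hL ht
  have hyL : IsTranscendenceBasis ℂ (fun j => algebraMap K L (y j)) := hy.algebraMap_comp
  obtain ⟨ρ, hρ⟩ : ∃ ρ, ρ = (Matrix.of fun i j => EL i (algebraMap K L (y j))).det := ⟨_, rfl⟩
  obtain ⟨EY, hEY⟩ := Pool.Agent.W636.PG.exists_duals ℂ L (d + (r + 1)) _ hyL
  have hρ0 : ρ ≠ 0 := by
    intro h0
    have h1 : IsPluri 1 (fun D : Fin (d + (r + 1)) → Derivation ℂ L L =>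
        (Matrix.of fun a b => D a (algebraMap K L (y b))).det ^ 1 * (1 : L)) :=
      det_pluri (fun j => algebraMap K L (y j)) 1 1
    have h2 := pluri_coord hxt hEL h1 EY
    have h3 : (Matrix.of fun a b => EY a (algebraMap K L (y b))).det = 1 := by
      have h4 : (Matrix.of fun a b => EY a (algebraMap K L (y b))) = 1 := by
        ext a b
        rw [Matrix.of_apply, Matrix.one_apply]
        exact hEY a b
      rw [h4, Matrix.det_one]
    rw [h3, ← hρ, h0] at h2
    simp at h2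
  -- the twist
  have h := lin_of hsup hU hT hL
  obtain ⟨S', hS'⟩ : ∃ S' : Finset L, S' = (S.image (algebraMap K L)).image
    (algebraMap L L) := ⟨_, rfl⟩
  obtain ⟨ST, q, hq0, hqS, hS, hone⟩ : ∃ (ST : Finset T) (q : L), q ≠ 0 ∧
      (∀ s ∈ S', q * s ∈ RR T U) ∧
      (∀ s ∈ S', ∃ (r : ℕ) (β : Fin r → U) (μ : Fin r → T), (∀ i, μ i ∈ ST) ∧
        q * s = ∑ i, (β i : L) * (μ i : L)) ∧ (S = {1} → q = 1 ∧ ST = {1}) := by
    by_cases hS1 : S = {1}
    · have h1 : S' = {1} := by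
        rw [hS', hS1, Finset.image_singleton, map_one, Finset.image_singleton, map_one]
      refine ⟨{1}, 1, one_ne_zero, fun s hs => ?_, fun s hs => ?_, fun _ => ⟨rfl, rfl⟩⟩
      · rw [h1, Finset.mem_singleton] at hs
        rw [hs, one_mul]
        exact one_mem _
      · rw [h1, Finset.mem_singleton] at hs
        refine ⟨1, fun _ => 1, fun _ => 1, fun _ => Finset.mem_singleton_self _, ?_⟩
        rw [hs]
        simp
    · obtain ⟨q, hq, hq0, hqS⟩ := exists_den h S'
      have hexp : ∀ s : L, ∃ (r : ℕ) (β : Fin r → U) (μ : Fin r → T), s ∈ S' →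
          q * s = ∑ i, (β i : L) * (μ i : L) := by
        intro s
        by_cases hs : s ∈ S'
        · obtain ⟨r, β, μ, -, h1⟩ := exists_expand (hqS s hs)
          exact ⟨r, β, μ, fun _ => h1⟩
        · exact ⟨0, fun i => i.elim0, fun i => i.elim0, fun h => absurd h hs⟩
      choose r β μ hexp' using hexp
      obtain ⟨ST, hST⟩ : ∃ ST : Finset T, ST = S'.biUnion fun s => Finset.univ.image (μ s) :=
        ⟨_, rfl⟩
      refine ⟨ST, q, hq0, hqS, fun s hs => ?_, fun h => absurd h hS1⟩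
      refine ⟨r s, β s, μ s, fun i => ?_, hexp' s hs⟩
      rw [hST, Finset.mem_biUnion]
      exact ⟨s, hs, Finset.mem_image_of_mem _ (Finset.mem_univ i)⟩
  have hdivF : ∀ Q : Place U L, Divisorial (r + 1) Q → Divisorial (d + (r + 1)) (resPl ℂ Q) :=
    fun Q hQ => (Pool.Agent.Y174.exists_frame_fib hessL hL hx.1 hQ).1
  have hQU : ∀ Q : Place U L, ∀ z ∈ U, (resPl ℂ Q).ord z = 0 := by
    intro Q z hz
    by_cases h0 : z = 0
    · rw [h0]
      exact Q.ord_zero
    · have h1 : (⟨z, hz⟩ : U) ≠ 0 := fun h => h0 (congrArg Subtype.val h)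
      exact Q.ord_const h1
  refine ⟨ST, q, ρ, t, E', hq0, hρ0, ht, hE', hone, fun m ω hω => ?_⟩
  have h1 := Pool.Agent.Y174.pair_pull hessK hnK hδV y EK hy hEK hω
  have halg : Algebra.IsAlgebraic L L := inferInstance
  have h2 := Pool.Agent.Y174.res_sec (L := U) (Λ := U) (F := L) hessL hL hx hbas hEL
    (fib_of (U := U) hδV0) h1
  rw [← hS', ← hρ] at h2
  obtain ⟨l, β, μ, hval, hsec⟩ := base_values hsup hU hT hL (fun Q hQ hQT => by
      refine (hprod _ (hdivF Q hQ) (hQU Q)).1 fun z hz => ?_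
      change Q.ord z = 0
      by_cases h0 : z = 0
      · rw [h0]
        exact Q.ord_zero
      have h1 := (hQT ⟨z, hz⟩).resolve_left h0
      have h2 := (hQT ⟨z, hz⟩⁻¹).resolve_left (by
        change z⁻¹ ≠ 0
        exact inv_ne_zero h0)
      have h3 : Q.ord (((⟨z, hz⟩⁻¹ : T) : L)) = -Q.ord z := by
        change Q.ord z⁻¹ = _
        rw [Q.ord_inv]
      rw [h3] at h2
      change 0 ≤ Q.ord z at h1
      omega) (fun Q v hQ hv hQv => by
      have h1 : Over (resPl ℂ Q) v 1 := by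
        refine ⟨one_pos, fun f => ?_⟩
        rw [Nat.cast_one, one_mul]
        exact hQv f
      have h2 := (hprod _ (hdivF Q hQ) (hQU Q)).2 v 1 h1
      rw [Nat.cast_one, one_mul, sub_sub_cancel, max_eq_right (hδT0 v)] at h2
      exact h2) ht hE hE' hEE hq0 hqS hS h2
  refine ⟨l, β, μ, ?_, hsec⟩
  rw [← hval]
  have h3 : (Matrix.of fun a b => E a (algebraMap L L (t b : L))).det = 1 := by
    have h4 : (Matrix.of fun a b => E a (algebraMap L L (t b : L))) = 1 := by
      ext a b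
      rw [Matrix.of_apply, Matrix.one_apply]
      exact hE a b
    rw [h4, Matrix.det_one]
  change _ = q * ((Matrix.of fun a b => E a (algebraMap L L (t b : L))).det ^ m *
    algebraMap L L (ρ ^ m * algebraMap K L (ω EK)))
  rw [h3, one_pow, one_mul]
  rfl

end

end Pool.Agent.U192.PT
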