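import Pool.Agent.U192.PE.Eff

/-!
Abundance for the images of fibre spaces with arbitrary fibres.
-/

set_option autoImplicit false
set_option linter.overlappingInstances false
set_option linter.unusedSectionVars false

open FF Pool.Agent.W602.GT Pool.Agent.W603.LV Pool.Agent.W619.PQ Pool.Agent.Y172
open Pool.Agent.W619.TW (HasIndep)
open Pool.Agent.Y174 (PairSec PairKod PairNum IsPull IsPullFib LiesOn)
open Pool.Agent.U192.NM (dg pol Lv exists_basis_pol)
open Pool.Agent.U192.PE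
open Pool.Agent.U192.PN (easy_pair DivBd divBd_pull)

namespace Pool.Agent.U192.PT

section

variable {K L : Type} [Field K] [Field L] [Algebra ℂ K] [Algebra ℂ L]
  [Algebra K L] [IsScalarTower ℂ K L] [FiniteDimensional K L]
  [Algebra.EssFiniteType ℂ K] [Algebra.EssFiniteType ℂ L]

/-- **The Kodaira dimension**, general form. -/
theorem kod_gen (E : IntermediateField ℂ L) {κ : ℕ} (X : Fin κ → Finset L)
    (hX : IntermediateField.adjoin ℂ (⋃ i, (X i : Set L)) = E)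
    {δ : Place ℂ K → ℝ} {n m a : ℕ} (hm : 1 ≤ m) (hn : Algebra.trdeg ℂ L = n)
    {θ : Fin (a + 1) → (Fin n → Derivation ℂ L L) → L} (hθ : ∀ l, IsPluri m (θ l))
    (hpos : ∀ l, ∀ (P : Place ℂ K) (Q : Place ℂ L) (e : ℕ), Over Q P e → Divisorial n Q →
      (∃ z ∈ E, Q.ord z ≠ 0) → ∀ c : ℕ, (∀ z ∈ E, (c : ℤ) ∣ Q.ord z) →
      ∀ G : Fin n → Derivation ℂ L L, (∀ i, DerReg Q (G i)) → θ l G = 0 ∨
        (m : ℝ) * (c - 1) + (∑ i, 2 * m * ((dg K X i : ℤ) - 1) * pol (X i) Q : ℤ) ≤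
          Q.ord (θ l G) + m * e * δ P)
    (hhor : ∀ l, ∀ (P : Place ℂ K) (Q : Place ℂ L) (e : ℕ), Over Q P e → Divisorial n Q →
      (∀ z ∈ E, Q.ord z = 0) →
      ∀ c : ℕ, (∀ z ∈ IntermediateField.adjoin K (E : Set L), (c : ℤ) ∣ Q.ord z) →
      ∀ G : Fin n → Derivation ℂ L L, (∀ i, DerReg Q (G i)) →
      θ l G = 0 ∨ (m : ℝ) * (c - 1) ≤ Q.ord (θ l G) + m * e * δ P)
    {D0 : Fin n → Derivation ℂ L L} (hD0 : θ 0 D0 ≠ 0)
    (hind : AlgebraicIndependent ℂ fun j : Fin a => θ j.succ D0 / θ 0 D0) :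
    PairKod ℂ K n δ a := by
  classical
  have hcK : CharZero K := charZero_of_injective_algebraMap (algebraMap ℂ K).injective
  have hXE : ∀ i, ∀ z ∈ X i, z ∈ E := by
    intro i z hz
    rw [← hX]
    exact IntermediateField.subset_adjoin _ _ (Set.mem_iUnion.2 ⟨i, hz⟩)
  have hE : ∀ z ∈ E, z ∈ Lv K X κ := mem_Lv hX
  have hadj : IntermediateField.adjoin K (E : Set L) ≤ Lv K X κ := by
    rw [IntermediateField.adjoin_le_iff]
    exact hE
  obtain ⟨dd, f, hf⟩ := exists_basis_pol K hXE hE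
  have ht1 : IsScalarTower ℂ (Lv K X κ) L := IsScalarTower.of_algebraMap_eq fun _ => rfl
  refine kod_of_regS (K := K) (M := Lv K X κ) (L := L) f hm hn hθ (fun l => ?_) hD0 hind
  refine regS_of_pos hE hadj hf (fun P Q e hQ hQd hEQ c hc G hG => ?_)
    (fun P Q e hQ hQd hEQ c hc G hG => ?_)
  · rcases hpos l P Q e hQ hQd hEQ c hc G hG with h | h
    · exact Or.inl h
    refine Or.inr ⟨1, Finset.mem_singleton_self _, one_ne_zero, ?_⟩
    rw [Q.ord_one, Int.cast_zero, add_zero]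
    exact h
  · rcases hhor l P Q e hQ hQd hEQ c hc G hG with h | h
    · exact Or.inl h
    refine Or.inr ⟨1, Finset.mem_singleton_self _, one_ne_zero, ?_⟩
    rw [Q.ord_one, Int.cast_zero, add_zero]
    exact h

end

section

variable {K L Λ F : Type} [Field K] [Field L] [Field Λ] [Field F] [Algebra ℂ K] [Algebra ℂ L]
  [Algebra K L] [IsScalarTower ℂ K L] [FiniteDimensional K L]
  [Algebra.EssFiniteType ℂ K] [Algebra.EssFiniteType ℂ L] (E : IntermediateField ℂ L)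
  [Algebra E Λ] [Algebra Λ F] [Algebra L F] [IsScalarTower E Λ F] [IsScalarTower E L F]
  [Algebra ℂ Λ] [Algebra ℂ F] [IsScalarTower ℂ Λ F] [IsScalarTower ℂ L F] [IsScalarTower ℂ E Λ]

/-- **The numerical dimension of an image of a fibre space.** -/
theorem num_le {d r h : ℕ} (hE : Algebra.trdeg ℂ E = d)
    (hn : Algebra.trdeg ℂ L = (d + (r + 1) : ℕ)) [Algebra.IsAlgebraic E Λ]
    (hgenF : IntermediateField.adjoin Λ (Set.range (algebraMap L F)) = ⊤)
    (hcl : ∀ z : L, IsAlgebraic E z → z ∈ E)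
    {δ : Place ℂ K → ℝ} {δV : Place ℂ L → ℝ} {δF : Place Λ F → ℝ} (hδV : IsPull δ δV)
    (hδF : IsPullFib δV δF) (hbd : DivBd (d + (r + 1)) δ)
    (hnum : PairNum Λ F (r + 1) δF h)
    {κ : ℕ} (X : Fin κ → Finset L) (hX : IntermediateField.adjoin ℂ (⋃ i, (X i : Set L)) = E) :
    PairNum ℂ K (d + (r + 1)) δ (d + h) := by
  have hnK : Algebra.trdeg ℂ K = (d + (r + 1) : ℕ) := Pool.Agent.Y184.NT.trdeg_below (K := L) hn
  have hess : Algebra.EssFiniteType ℂ E := by
    rw [IntermediateField.essFiniteType_iff, ← hX]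
    classical
    refine ⟨Finset.univ.biUnion X, ?_⟩
    congr 1
    ext z
    simp
  have h1 : PairNum ℂ L (d + (r + 1)) δV (d + h) :=
    easy_pair (L := E) (Λ := Λ) (F := F) hess inferInstance hgenF
      (fun z hz => ⟨⟨z, hcl z hz.isAlgebraic⟩, rfl⟩) hE hn hδF (divBd_pull hδV hbd) hnum
  exact Pool.Agent.Y174.pair_num inferInstance hnK hδV h1

end

end Pool.Agent.U192.PT
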