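import Pool.Agent.U192.PT.Kodaira
import Pool.Agent.U192.PT.Alg
import Pool.Agent.U192.PT.Good

/-!
The fibrations of `W` over which the ratios of the forms upstairs are algebraic.
-/

set_option autoImplicit false
set_option linter.overlappingInstances false
set_option linter.unusedSectionVars false

open FF Pool.Agent.W602.GT Pool.Agent.W603.LV Pool.Agent.W619.PQ Pool.Agent.Y172
open Pool.Agent.Y174 (PairSec PairKod PairNum IsPull IsPullFib LiesOn GeR)

namespace Pool.Agent.U192.PT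

open Pool.Agent.U192.PE
open Pool.Agent.U192.NM (dg pol Lv exists_basis_pol)
open Pool.Agent.U192.PN (easy_pair DivBd divBd_pull)

section

variable {K L : Type} [Field K] [Field L] [Algebra ℂ K] [Algebra ℂ L]
  [Algebra K L] [IsScalarTower ℂ K L]

/-- the coefficients of the minimal polynomial -/
theorem alg_coeff {F1 : IntermediateField ℂ K} {t : L}
    (ht : IsAlgebraic (F1.map (IsScalarTower.toAlgHom ℂ K L)) t) (htK : IsIntegral K t) (i : ℕ) :
    IsAlgebraic F1 ((minpoly K t).coeff i) := by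
  have h1 : IsAlgebraic F1 t := by
    let f : F1 →+* F1.map (IsScalarTower.toAlgHom ℂ K L) :=
      (((IsScalarTower.toAlgHom ℂ K L).comp F1.val).codRestrict
        (F1.map (IsScalarTower.toAlgHom ℂ K L)).toSubalgebra (fun x => by
          change _ ∈ F1.map (IsScalarTower.toAlgHom ℂ K L)
          rw [IntermediateField.mem_map]
          exact ⟨x, x.2, rfl⟩)).toRingHom
    refine ht.of_ringHom_of_comp_eq f (RingHom.id L) ?_ (fun _ _ h => h) (RingHom.ext fun _ => rfl)
    rintro ⟨y, hy⟩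
    rw [IntermediateField.mem_map] at hy
    obtain ⟨x, hx, rfl⟩ := hy
    exact ⟨⟨x, hx⟩, rfl⟩
  have h2 : IsIntegral F1 t := h1.isIntegral
  have h3 : minpoly K t ∣ (minpoly F1 t).map (algebraMap F1 K) :=
    minpoly.dvd_map_of_isScalarTower F1 K t
  have h4 := integralClosure.mem_lifts_of_monic_of_dvd_map K (minpoly.monic h2)
    (minpoly.monic htK) h3
  rw [Polynomial.lifts_iff_coeff_lifts] at h4
  obtain ⟨z, hz⟩ := h4 i
  rw [← hz]
  exact z.2.isAlgebraic

/-- transitivity -/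
theorem alg_tr {R : IntermediateField ℂ K} {C : Set K} (hC : ∀ c ∈ C, IsAlgebraic R c) {z : K}
    (hz : IsAlgebraic (IntermediateField.adjoin ℂ C) z) : IsAlgebraic R z := by
  let R1 : IntermediateField ℂ K := (algebraicClosure R K).restrictScalars ℂ
  have h1 : IntermediateField.adjoin ℂ C ≤ R1 := by
    rw [IntermediateField.adjoin_le_iff]
    intro c hc
    change c ∈ algebraicClosure R K
    rw [mem_algebraicClosure_iff]
    exact hC c hc
  have h2 : IsAlgebraic R1 z := by
    refine alg_map (A := K) (B := K) (AlgHom.id ℂ K) ?_ hz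
    rw [IntermediateField.map_id]
    exact h1
  have h3 : IsAlgebraic (algebraicClosure R K) z := h2
  have h4 : Algebra.IsAlgebraic R (algebraicClosure R K) := inferInstance
  exact h3.restrictScalars R

end

section

variable {K : Type} [Field K] [Algebra ℂ K]

theorem PairSec_mulB {n : ℕ} {δ : Place ℂ K → ℝ} {S : Finset K} {m M : ℕ}
    {ω η : (Fin n → Derivation ℂ K K) → K} (hω : PairSec ℂ K n δ S m 1 ω) (hη : IsPluri M η)
    (y : K) (h : ∀ s ∈ S, Bds n δ M η (s * y)) :
    PairSec ℂ K n δ {1} (m + M) 0 (fun G => ω G * η G * y) := by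
  refine ⟨?_, fun P hP G hG => ?_⟩
  · intro A G
    have h1 := pluri_mul hω.1 hη A G
    change ω _ * η _ * y = A.det ^ (m + M) * (ω G * η G * y)
    have h2 : ω (fun i => ∑ j, A i j • G j) * η (fun i => ∑ j, A i j • G j) =
      A.det ^ (m + M) * (ω G * η G) := h1
    rw [h2]
    ring
  · by_cases h0 : ω G * η G * y = 0
    · exact Or.inl h0
    right
    have hω0 : ω G ≠ 0 := fun h1 => h0 (by rw [h1, zero_mul, zero_mul])
    have hη0 : η G ≠ 0 := fun h1 => h0 (by rw [h1, mul_zero, zero_mul])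
    have hy0 : y ≠ 0 := fun h1 => h0 (by rw [h1, mul_zero])
    refine ⟨1, Finset.mem_singleton_self _, one_ne_zero, ?_⟩
    obtain ⟨s, hs, hs0, h1⟩ := (hω.2 P hP G hG).resolve_left hω0
    have h2 := (h s hs P hP G hG).resolve_left (mul_ne_zero hη0 (mul_ne_zero hs0 hy0))
    have h3 : P.ord (η G * (s * y)) = P.ord (η G) + (P.ord s + P.ord y) := by
      rw [P.ord_mul hη0 (mul_ne_zero hs0 hy0), P.ord_mul hs0 hy0]
    have h4 : P.ord (ω G * η G * y) = P.ord (ω G) + P.ord (η G) + P.ord y := by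
      rw [P.ord_mul (mul_ne_zero hω0 hη0) hy0, P.ord_mul hω0 hη0]
    have h5 : P.ord ((fun G => ω G * η G * y) G) = P.ord (ω G * η G * y) := rfl
    rw [h5, h4]
    rw [h3] at h2
    push_cast at h1 h2 ⊢
    linarith

/-- **The Kodaira dimension of `W` from the fibres.** -/
theorem kod_fib {n : ℕ} {δ : Place ℂ K → ℝ} (hn : Algebra.trdeg ℂ K = n)
    (h0 : PairKod ℂ K n δ 0) (EY : IntermediateField ℂ K)
    (hEY : ∀ z ∈ EY, IsAlgebraic (IntermediateField.adjoin ℂ (ratios K n δ)) z) {e : ℕ}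
    (he : Algebra.trdeg ℂ EY = e) {b m : ℕ} (hm : 1 ≤ m) {S : Finset K} (hS : ∀ s ∈ S, s ∈ EY)
    {ω : Fin (b + 1) → (Fin n → Derivation ℂ K K) → K} (hω : ∀ l, PairSec ℂ K n δ S m 1 (ω l))
    {D : Fin n → Derivation ℂ K K} (hD : ω 0 D ≠ 0)
    (hind : AlgebraicIndependent EY fun j : Fin b => ω j.succ D / ω 0 D) :
    PairKod ℂ K n δ (b + e) := by
  classical
  obtain ⟨y, hy⟩ := Pool.Agent.W636.PG.exists_basis ℂ EY e he
  obtain ⟨M, η, hM, hη, hη0, hη1, hηS⟩ := kodaira hn h0
    (S ∪ (S ×ˢ (Finset.univ : Finset (Fin e))).image fun p => p.1 * (y p.2 : K)) (fun s hs => by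
      rcases Finset.mem_union.1 hs with hs | hs
      · exact hEY s (hS s hs)
      · obtain ⟨⟨s', i⟩, hp, rfl⟩ := Finset.mem_image.1 hs
        exact hEY _ (EY.mul_mem (hS s' (Finset.mem_product.1 hp).1) (y i).2))
  have hsec : ∀ l, PairSec ℂ K n δ {1} (m + M) 0 (fun G => ω l G * η G * 1) := by
    intro l
    refine PairSec_mulB (hω l) hη 1 fun s hs => ?_
    rw [mul_one]
    exact hηS s (Finset.mem_union_left _ hs)
  have hsecy : ∀ i, PairSec ℂ K n δ {1} (m + M) 0 (fun G => ω 0 G * η G * (y i : K)) := by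
    intro i
    refine PairSec_mulB (hω 0) hη _ fun s hs => ?_
    exact hηS _ (Finset.mem_union_right _ (Finset.mem_image.2 ⟨(s, i),
      Finset.mem_product.2 ⟨hs, Finset.mem_univ _⟩, rfl⟩))
  have hηD : η D ≠ 0 := by
    obtain ⟨x, hx⟩ := Pool.Agent.W636.PG.exists_basis ℂ K n hn
    obtain ⟨E, hE⟩ := Pool.Agent.W636.PG.exists_duals ℂ K n x hx
    have h1 : ω 0 D = _ := pluri_coord hx hE (hω 0).1 D
    have h2 : η D = _ := pluri_coord hx hE hη D
    have h3 : η E ≠ 0 := by
      intro h3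
      apply hη0
      funext G
      have h4 : η G = _ := pluri_coord hx hE hη G
      rw [h4, h3, mul_zero]
      rfl
    rw [h2]
    refine mul_ne_zero (pow_ne_zero _ fun h4 => hD ?_) h3
    rw [h1, h4, zero_pow (by omega), zero_mul]
  -- the sections
  obtain ⟨x, hx⟩ : ∃ x : Fin b → K, x = fun j => ω j.succ D / ω 0 D := ⟨_, rfl⟩
  rw [← hx] at hind
  have hx0 : ∀ j, x j ≠ 0 := fun j => hind.ne_zero j
  have hy0 : ∀ i, (y i : K) ≠ 0 := fun i h => by
    have h1 : y i ≠ 0 := hy.1.ne_zero i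
    apply h1
    exact Subtype.ext h
  have hall : AlgebraicIndependent ℂ (Sum.elim x (algebraMap EY K ∘ y)) :=
    AlgebraicIndependent.sumElim_comp hy.1 hind
  obtain ⟨z, hz⟩ : ∃ z : Fin (b + e) → K, z = Fin.append x (algebraMap EY K ∘ y) := ⟨_, rfl⟩
  have hzi : AlgebraicIndependent ℂ z := by
    rw [← Fin.append_comp_sumElim, ← hz] at hall
    have h1 := hall.comp finSumFinEquiv.symm finSumFinEquiv.symm.injective
    convert h1 using 1
    funext i
    obtain ⟨i', rfl⟩ := finSumFinEquiv.surjective i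
    rw [Function.comp_apply, Function.comp_apply, Equiv.symm_apply_apply]
    rfl
  obtain ⟨Ω, hΩ⟩ : ∃ Ω : Fin (b + e) → (Fin n → Derivation ℂ K K) → K,
      (∀ i, PairSec ℂ K n δ {1} (m + M) 0 (Ω i)) ∧ ∀ i, Ω i D / (ω 0 D * η D * 1) = z i ∧
        Ω i D ≠ 0 := by
    have hne : ω 0 D * η D * 1 ≠ 0 := by
      rw [mul_one]
      exact mul_ne_zero hD hηD
    have key : ∀ i, ∃ Ωi : (Fin n → Derivation ℂ K K) → K,
        PairSec ℂ K n δ {1} (m + M) 0 Ωi ∧ Ωi D / (ω 0 D * η D * 1) = z i ∧ Ωi D ≠ 0 := by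
      intro i
      refine Fin.addCases (fun j => ?_) (fun j => ?_) i
      · have h1 : z (Fin.castAdd e j) = ω j.succ D / ω 0 D := by
          rw [hz, Fin.append_left, hx]
        have h2 : ω j.succ D ≠ 0 := by
          intro h2
          have h3 := hx0 j
          rw [hx] at h3
          apply h3
          change ω j.succ D / ω 0 D = 0
          rw [h2, zero_div]
        refine ⟨_, hsec j.succ, ?_, ?_⟩
        · rw [h1]
          change ω j.succ D * η D * 1 / (ω 0 D * η D * 1) = _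
          field_simp
        · change ω j.succ D * η D * 1 ≠ 0
          rw [mul_one]
          exact mul_ne_zero h2 hηD
      · have h1 : z (Fin.natAdd b j) = (y j : K) := by
          rw [hz, Fin.append_right]
          rfl
        refine ⟨_, hsecy j, ?_, ?_⟩
        · rw [h1]
          change ω 0 D * η D * (y j : K) / (ω 0 D * η D * 1) = _
          field_simp
        · change ω 0 D * η D * (y j : K) ≠ 0
          exact mul_ne_zero (mul_ne_zero hD hηD) (hy0 j)
    choose Ω hΩ using key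
    exact ⟨Ω, fun i => (hΩ i).1, fun i => (hΩ i).2⟩
  have hne : ω 0 D * η D * 1 ≠ 0 := by
    rw [mul_one]
    exact mul_ne_zero hD hηD
  refine ⟨m + M, by omega, Fin.cons (fun G => ω 0 G * η G * 1) Ω, fun l => ?_, D, fun l => ?_, ?_⟩
  · refine Fin.cases ?_ (fun i => ?_) l
    · rw [Fin.cons_zero]
      exact hsec 0
    · rw [Fin.cons_succ]
      exact hΩ.1 i
  · refine Fin.cases ?_ (fun i => ?_) l
    · rw [Fin.cons_zero]
      exact hne
    · rw [Fin.cons_succ]
      exact (hΩ.2 i).2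
  · have h5 : (fun l : Fin (b + e) => Ω l D / (ω 0 D * η D * 1)) = z :=
      funext fun i => (hΩ.2 i).1
    change AlgebraicIndependent ℂ (fun l : Fin (b + e) => Ω l D / (ω 0 D * η D * 1))
    rw [h5]
    exact hzi

end

section

variable {K L : Type} [Field K] [Field L] [Algebra ℂ K] [Algebra ℂ L]
  [Algebra K L] [IsScalarTower ℂ K L] [FiniteDimensional K L]
  [Algebra.EssFiniteType ℂ K] [Algebra.EssFiniteType ℂ L]

/-- the field of the coefficients of the minimal polynomials over `K` of the functions in `T` -/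
def coeffs (K : Type) [Field K] [Algebra K L] (T : Set L) : Set K :=
  {c | ∃ t ∈ T, ∃ i : ℕ, c = (minpoly K t).coeff i}

/-- **The functions on `Y`** are algebraic over the ratios of the sections of the multiples of
`K_W + Δ`. -/
theorem alg_gen (E : IntermediateField ℂ L) {κ : ℕ} (X : Fin κ → Finset L)
    (hX : IntermediateField.adjoin ℂ (⋃ i, (X i : Set L)) = E)
    {δ : Place ℂ K → ℝ} {n m a : ℕ} (hm : 1 ≤ m) (hn : Algebra.trdeg ℂ L = n)
    {θ : Fin (a + 1) → (Fin n → Derivation ℂ L L) → L} (hθ : ∀ l, IsPluri m (θ l))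
    (hpos : ∀ l, ∀ (P : Place ℂ K) (Q : Place ℂ L) (e : ℕ), Over Q P e → Divisorial n Q →
      (∃ z ∈ E, Q.ord z ≠ 0) → ∀ c : ℕ, (∀ z ∈ E, (c : ℤ) ∣ Q.ord z) →
      ∀ G : Fin n → Derivation ℂ L L, (∀ i, DerReg Q (G i)) → θ l G = 0 ∨
        (m : ℝ) * (c - 1) + (∑ i, 2 * m * ((dg K X i : ℤ) - 1) * pol (X i) Q : ℤ) ≤
          Q.ord (θ l G) + m * e * δ P)
    (hhor : ∀ l, ∀ (P : Place ℂ K) (Q : Place ℂ L) (e : ℕ), Over Q P e → Divisorial n Q →
      (∀ z ∈ E, Q.ord z = 0) →
      ∀ c : ℕ, (∀ z ∈ IntermediateField.adjoin K (E : Set L), (c : ℤ) ∣ Q.ord z) →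
      ∀ G : Fin n → Derivation ℂ L L, (∀ i, DerReg Q (G i)) →
      θ l G = 0 ∨ (m : ℝ) * (c - 1) ≤ Q.ord (θ l G) + m * e * δ P)
    {D0 : Fin n → Derivation ℂ L L} (hD0 : θ 0 D0 ≠ 0) :
    PairKod ℂ K n δ 0 ∧ ∀ z : K, IsAlgebraic (IntermediateField.adjoin ℂ
      (coeffs K (Set.range fun j : Fin a => θ j.succ D0 / θ 0 D0))) z →
      IsAlgebraic (IntermediateField.adjoin ℂ (ratios K n δ)) z := by
  classical
  have hcK : CharZero K := charZero_of_injective_algebraMap (algebraMap ℂ K).injective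
  have hXE : ∀ i, ∀ z ∈ X i, z ∈ E := by
    intro i z hz
    rw [← hX]
    exact IntermediateField.subset_adjoin _ _ (Set.mem_iUnion.2 ⟨i, hz⟩)
  have hE : ∀ z ∈ E, z ∈ Lv K X κ := mem_Lv hX
  have hadj : IntermediateField.adjoin K (E : Set L) ≤ Lv K X κ := by
    rw [IntermediateField.adjoin_le_iff]
    exact hE
  obtain ⟨dd, f, hf⟩ := exists_basis_pol K hXE hE
  have ht1 : IsScalarTower ℂ (Lv K X κ) L := IsScalarTower.of_algebraMap_eq fun _ => rfl
  have hreg : ∀ l, RegS δ (Lv K X κ) n m {1} (fun j => algebraMap (Lv K X κ) L (f j)) (θ l) := by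
    intro l
    refine regS_of_pos hE hadj hf (fun P Q e hQ hQd hEQ c hc G hG => ?_)
      (fun P Q e hQ hQd hEQ c hc G hG => ?_)
    · rcases hpos l P Q e hQ hQd hEQ c hc G hG with h | h
      · exact Or.inl h
      refine Or.inr ⟨1, Finset.mem_singleton_self _, one_ne_zero, ?_⟩
      rw [Q.ord_one, Int.cast_zero, add_zero]
      exact h
    · rcases hhor l P Q e hQ hQd hEQ c hc G hG with h | h
      · exact Or.inl h
      refine Or.inr ⟨1, Finset.mem_singleton_self _, one_ne_zero, ?_⟩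
      rw [Q.ord_one, Int.cast_zero, add_zero]
      exact h
  refine ⟨?_, fun z hz => alg_tr (C := coeffs K _) ?_ hz⟩
  · exact kod_of_regS (K := K) (M := Lv K X κ) (L := L) (a := 0) f hm hn
      (θ := fun _ => θ 0) (fun _ => hθ 0) (fun _ => hreg 0) hD0
      (algebraicIndependent_empty_type_iff.2 (algebraMap ℂ L).injective)
  · rintro _ ⟨t, ⟨j, rfl⟩, i, rfl⟩
    exact alg_coeff (alg_of_regS (K := K) (M := Lv K X κ) (L := L) f hm hn hθ hreg hD0 j)
      (Algebra.IsIntegral.isIntegral _) i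

end

end Pool.Agent.U192.PT
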