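import Pool.Agent.U192.PE.Eff

/-!
The number of the sections of the multiples of a divisor on a factor.
-/

set_option autoImplicit false
set_option linter.overlappingInstances false
set_option linter.unusedSectionVars false

open FF IntermediateField Pool.Agent.W619.PQ Pool.Agent.W603.LV Pool.Agent.Y172
open Pool.Agent.W602.GT (Divisorial DerReg IsPluri KodGe)
open Pool.Agent.W619.TW (HasIndep)
open Pool.Agent.Y174 (PairSec PairKod PairNum IsPull IsPullFib LiesOn)
open Pool.Agent.U192.PB (pf cz pf_change pf_pluri up pol_over closed_in indep_pow basis_over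
  ge_det_col)
open Pool.Agent.U192.NM (dg pol)
open Pool.Agent.U192.PE

namespace Pool.Agent.U192.PT

section

variable {U : Type} [Field U] [Algebra ℂ U]

/-- functions with large poles -/
theorem exists_pole (Y : Finset U) (C : ℕ) : ∃ S : Finset U, (∃ s ∈ S, s ≠ 0) ∧
    ∀ P : Place ℂ U, ∃ s ∈ S, s ≠ 0 ∧ P.ord s ≤ -((C : ℤ) * pol Y P) := by
  classical
  refine ⟨insert 1 ((Y.filter fun z => z ≠ 0).image fun z => z ^ C),
    ⟨1, Finset.mem_insert_self _ _, one_ne_zero⟩, fun P => ?_⟩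
  rcases Nat.eq_zero_or_pos (pol Y P) with h0 | h0
  · refine ⟨1, Finset.mem_insert_self _ _, one_ne_zero, ?_⟩
    rw [h0, P.ord_one]
    simp
  · have hne : Y.Nonempty := by
      by_contra h
      rw [Finset.not_nonempty_iff_eq_empty] at h
      rw [h] at h0
      exact absurd h0 (by unfold pol; simp)
    obtain ⟨z, hz, hzs⟩ := Finset.exists_mem_eq_sup Y hne fun z => (-P.ord z).toNat
    have h1 : pol Y P = (-P.ord z).toNat := hzs
    rw [h1] at h0 ⊢
    have h2 : z ≠ 0 := by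
      intro h
      rw [h, P.ord_zero] at h0
      exact absurd h0 (by simp)
    refine ⟨z ^ C, Finset.mem_insert_of_mem (Finset.mem_image_of_mem _
      (Finset.mem_filter.2 ⟨hz, h2⟩)), pow_ne_zero _ h2, ?_⟩
    rw [P.ord_pow]
    have h3 : ((-P.ord z).toNat : ℤ) = -P.ord z := Int.toNat_of_nonneg (by omega)
    rw [h3]
    linarith

/-- the poles of a rational canonical form -/
theorem det_pole {d : ℕ} {x : Fin d → U} {Y : Finset U} (hY : ∀ j, x j ∈ Y) (P : Place ℂ U)
    {G : Fin d → Derivation ℂ U U} (hG : ∀ i, DerReg P (G i)) :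
    Ge P (-((2 * d : ℕ) * pol Y P : ℤ)) (Matrix.of fun i j => G i (x j)).det := by
  have h1 := ge_det_col P (Matrix.of fun i j => G i (x j)) (fun _ => -(2 * (pol Y P : ℤ)))
    fun i j => by
      rw [Matrix.of_apply]
      have h2 := Pool.Agent.U192.NM.pol_ge P (hY j)
      rcases lt_or_ge (P.ord (x j)) 0 with h3 | h3
      · have h4 := ge_der_reg (hG i) (x j)
        refine h4.mono ?_
        rcases h2 with h2 | h2
        · rw [h2, P.ord_zero] at h3
          exact absurd h3 (lt_irrefl _)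
        · linarith
      · have h4 : Ge P 0 (G i (x j)) := hG i _ (Or.inr h3)
        exact h4.mono (by
          have : (0 : ℤ) ≤ pol Y P := Int.natCast_nonneg _
          linarith)
  refine h1.mono (le_of_eq ?_)
  rw [Finset.sum_const, Finset.card_univ, Fintype.card_fin]
  push_cast
  rw [nsmul_eq_mul]
  ring

theorem pluri_mul {d m m' : ℕ} {α β : (Fin d → Derivation ℂ U U) → U} (hα : IsPluri m α)
    (hβ : IsPluri m' β) : IsPluri (m + m') fun G => α G * β G := by
  intro A G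
  have h1 : α (fun i => ∑ j, A i j • G j) = A.det ^ m * α G := hα A G
  have h2 : β (fun i => ∑ j, A i j • G j) = A.det ^ m' * β G := hβ A G
  change α _ * β _ = A.det ^ (m + m') * (α G * β G)
  rw [h1, h2, pow_add]
  ring

/-- monomials in algebraically independent functions -/
theorem mono_indep {a : ℕ} {x : Fin a → U} (hx : AlgebraicIndependent ℂ x) :
    LinearIndependent ℂ fun e : Fin a →₀ ℕ => ∏ i, x i ^ e i := by
  classical
  rw [linearIndependent_iff']
  intro s g hg i hi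
  have h2 : MvPolynomial.aeval x (∑ e ∈ s, MvPolynomial.monomial e (g e)) = 0 := by
    rw [map_sum, ← hg]
    refine Finset.sum_congr rfl fun e _ => ?_
    rw [MvPolynomial.aeval_monomial, Algebra.smul_def, Finsupp.prod_fintype]
    intro i
    exact pow_zero _
  have h3 := (algebraicIndependent_iff.1 hx) _ h2
  have h4 := congrArg (MvPolynomial.coeff i) h3
  rw [MvPolynomial.coeff_sum, MvPolynomial.coeff_zero, Finset.sum_eq_single i] at h4
  · rwa [MvPolynomial.coeff_monomial, if_pos rfl] at h4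
  · intro b _ hb
    rw [MvPolynomial.coeff_monomial, if_neg hb]
  · intro h
    exact absurd hi h

end

section

variable {K L : Type} [Field K] [Field L] [Algebra ℂ K] [Algebra ℂ L] [Algebra K L]
  [IsScalarTower ℂ K L] [FiniteDimensional K L] {U : IntermediateField ℂ L}

/-- **The number of sections.** -/
theorem many_sections {d m0 a κ : ℕ} (hm0 : 1 ≤ m0) (hU : Algebra.trdeg ℂ U = d)
    (X : Fin κ → Finset U) {α : Fin (a + 1) → (Fin d → Derivation ℂ U U) → U}
    (hα : ∀ j, SecU K d m0 X {1} (α j)) {G0 : Fin d → Derivation ℂ U U} (hG0 : α 0 G0 ≠ 0)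
    (hind : AlgebraicIndependent ℂ fun j : Fin a => α j.succ G0 / α 0 G0) :
    ∃ SU : Finset U, (∃ s ∈ SU, s ≠ 0) ∧ ∀ m : ℕ,
      HasIndep ℂ U d ((m / m0 / a + 1) ^ a) (SecU K d m X SU) := by
  classical
  obtain ⟨x, hx⟩ := Pool.Agent.W636.PG.exists_basis ℂ U d hU
  obtain ⟨Ex, hEx⟩ := Pool.Agent.W636.PG.exists_duals ℂ U d x hx
  obtain ⟨Y, hY⟩ : ∃ Y : Finset U, Y = Finset.univ.image x ∪ Finset.univ.biUnion X := ⟨_, rfl⟩
  have hxY : ∀ j, x j ∈ Y := by
    intro j
    rw [hY]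
    exact Finset.mem_union_left _ (Finset.mem_image_of_mem _ (Finset.mem_univ j))
  have hXY : ∀ i, X i ⊆ Y := by
    intro i z hz
    rw [hY]
    exact Finset.mem_union_right _ (Finset.mem_biUnion.2 ⟨i, Finset.mem_univ i, hz⟩)
  have hdg : ∀ i, (0 : ℤ) ≤ (dg K (up U X) i : ℤ) - 1 := by
    intro i
    have h1 : 0 < dg K (up U X) i := by
      unfold dg
      exact Module.finrank_pos
    omega
  obtain ⟨w, hw⟩ : ∃ w : Place ℂ U → ℤ, ∀ P, w P = ∑ i, 2 * ((dg K (up U X) i : ℤ) - 1) *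
      pol (X i) P := ⟨_, fun _ => rfl⟩
  have hwm : ∀ (m : ℕ) (P : Place ℂ U), ∑ i, 2 * (m : ℤ) * ((dg K (up U X) i : ℤ) - 1) *
      pol (X i) P = m * w P := by
    intro m P
    rw [hw, Finset.mul_sum]
    refine Finset.sum_congr rfl fun i _ => ?_
    ring
  have hw0 : ∀ P, 0 ≤ w P := by
    intro P
    rw [hw]
    refine Finset.sum_nonneg fun i _ => ?_
    have := hdg i
    positivity
  obtain ⟨C1, hC1⟩ : ∃ C1 : ℕ, ∀ P, w P ≤ C1 * pol Y P := by
    refine ⟨∑ i, 2 * (dg K (up U X) i - 1), fun P => ?_⟩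
    rw [hw]
    push_cast
    rw [Finset.sum_mul]
    refine Finset.sum_le_sum fun i _ => ?_
    have h1 : (pol (X i) P : ℤ) ≤ pol Y P := by
      have h2 : pol (X i) P ≤ pol Y P := Finset.sup_mono (hXY i)
      exact_mod_cast h2
    have h2 := hdg i
    have h3 : (((dg K (up U X) i - 1 : ℕ)) : ℤ) = (dg K (up U X) i : ℤ) - 1 := by
      omega
    rw [h3]
    exact mul_le_mul_of_nonneg_left h1 (by linarith)
  obtain ⟨SU, hSU0, hSU⟩ := exists_pole Y (m0 * (2 * d + C1))
  refine ⟨SU, hSU0, fun m => ?_⟩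
  obtain ⟨q, hq⟩ : ∃ q, q = m / m0 := ⟨_, rfl⟩
  obtain ⟨r, hr⟩ : ∃ r, r = m % m0 := ⟨_, rfl⟩
  have hqr : m = m0 * q + r := by
    rw [hq, hr]
    exact (Nat.div_add_mod m m0).symm
  have hrm : r ≤ m0 := by
    rw [hr]
    exact (Nat.mod_lt m hm0).le
  rw [← hq]
  have hsum : ∀ e : Fin a → Fin (q / a + 1), ∑ j, (e j : ℕ) ≤ q := by
    intro e
    have h1 : ∑ j, (e j : ℕ) ≤ ∑ _j : Fin a, q / a := Finset.sum_le_sum fun j _ =>
      Nat.lt_succ_iff.1 (e j).2
    rw [Finset.sum_const, Finset.card_univ, Fintype.card_fin, smul_eq_mul] at h1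
    exact h1.trans (Nat.mul_div_le q a)
  obtain ⟨Φ, hΦ⟩ : ∃ Φ : (Fin a → Fin (q / a + 1)) → (Fin d → Derivation ℂ U U) → U, ∀ e G,
      Φ e G = (∏ j : Fin a, α j.succ G ^ (e j : ℕ)) * α 0 G ^ (q - ∑ j, (e j : ℕ)) *
        (Matrix.of fun i j => G i (x j)).det ^ r := ⟨_, fun _ _ => rfl⟩
  have hpl : ∀ e, IsPluri m (Φ e) := by
    intro e A G
    have h1 : ∀ j, α j (fun i => ∑ j, A i j • G j) = A.det ^ m0 * α j G := fun j => (hα j).1 A G
    have h2 : (Matrix.of fun i j => (∑ l, A i l • G l) (x j)).det =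
        A.det * (Matrix.of fun i j => G i (x j)).det := by
      rw [← Matrix.det_mul]
      congr 1
      ext i j
      rw [Matrix.of_apply, Matrix.mul_apply, Pool.Agent.W308.PG.YLOC.der_sum_apply]
      rfl
    have h3 : ∏ j : Fin a, (A.det ^ m0 * α j.succ G) ^ (e j : ℕ) =
        (A.det ^ m0) ^ (∑ j, (e j : ℕ)) * ∏ j : Fin a, α j.succ G ^ (e j : ℕ) := by
      rw [← Finset.prod_pow_eq_pow_sum, ← Finset.prod_mul_distrib]
      refine Finset.prod_congr rfl fun j _ => ?_
      rw [mul_pow]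
    rw [hΦ, hΦ]
    simp only [h1]
    have h4 : (Matrix.of fun i j => ((fun i => ∑ l, A i l • G l) i) (x j)).det =
        A.det * (Matrix.of fun i j => G i (x j)).det := h2
    rw [h4, h3, mul_pow, mul_pow]
    have h5 : A.det ^ m = (A.det ^ m0) ^ (∑ j, (e j : ℕ)) * (A.det ^ m0) ^ (q - ∑ j, (e j : ℕ)) *
        A.det ^ r := by
      rw [← pow_add, Nat.add_sub_cancel' (hsum e), ← pow_mul, ← pow_add, ← hqr]
    rw [h5]
    ring
  have hreg : ∀ e, SecU K d m X SU (Φ e) := by
    intro e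
    refine ⟨hpl e, fun P hP G hG => ?_⟩
    have h1 : ∀ j, Ge P (m0 * w P) (α j G) := by
      intro j
      rcases (hα j).2 P hP G hG with h | ⟨s, hs, hs0, h⟩
      · exact Or.inl h
      · rw [Finset.mem_singleton] at hs
        rw [hs, P.ord_one, add_zero, hwm] at h
        exact Or.inr h
    have h2 : Ge P (∑ j : Fin a, ((e j : ℕ) : ℤ) * (m0 * w P))
        (∏ j : Fin a, α j.succ G ^ (e j : ℕ)) := by
      refine Ge.prod _ _ _ fun j _ => ?_
      exact (h1 j.succ).pow _
    have h3 := (h1 0).pow (q - ∑ j, (e j : ℕ))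
    have h4 := (det_pole hxY P hG).pow r
    have h5 := (h2.mul h3).mul h4
    rw [hΦ]
    rcases h5 with h5 | h5
    · exact Or.inl h5
    right
    obtain ⟨s, hs, hs0, h6⟩ := hSU P
    refine ⟨s, hs, hs0, le_trans ?_ h5⟩
    rw [hwm]
    have h7 : (∑ j : Fin a, ((e j : ℕ) : ℤ) * (m0 * w P)) +
        ((q - ∑ j, (e j : ℕ) : ℕ) : ℤ) * (m0 * w P) = q * (m0 * w P) := by
      rw [← Finset.sum_mul, Nat.cast_sub (hsum e)]
      push_cast
      ring
    rw [h7, hqr]
    have h8 := hC1 P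
    have h9 : (r : ℤ) ≤ m0 := by exact_mod_cast hrm
    have h10 : (0 : ℤ) ≤ pol Y P := Int.natCast_nonneg _
    have h11 : (r : ℤ) * w P ≤ r * (C1 * pol Y P) :=
      mul_le_mul_of_nonneg_left h8 (Int.natCast_nonneg _)
    have h12 : (r : ℤ) * ((2 * d + C1) * pol Y P) ≤ m0 * ((2 * d + C1) * pol Y P) :=
      mul_le_mul_of_nonneg_right h9 (by positivity)
    push_cast at h6 ⊢
    nlinarith
  refine ⟨fun l => Φ (finFunctionFinEquiv.symm l), ?_, fun l => hreg _⟩
  -- linear independence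
  have hα0 : α 0 Ex ≠ 0 := by
    intro h0
    apply hG0
    have h1 : α 0 G0 = _ := pluri_coord hx hEx (hα 0).1 G0
    rw [h1, h0, mul_zero]
  have hdet0 : (Matrix.of fun i j => G0 i (x j)).det ^ m0 ≠ 0 := by
    intro h0
    apply hG0
    have h1 : α 0 G0 = _ := pluri_coord hx hEx (hα 0).1 G0
    rw [h1, h0, zero_mul]
  have hratio : ∀ j, α j Ex / α 0 Ex = α j G0 / α 0 G0 := by
    intro j
    have h1 : α 0 G0 = _ := pluri_coord hx hEx (hα 0).1 G0
    have h2 : α j G0 = _ := pluri_coord hx hEx (hα j).1 G0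
    rw [h1, h2]
    field_simp
  have h1 : LinearIndependent ℂ fun e : Fin a → Fin (q / a + 1) =>
      ∏ j, (α j.succ G0 / α 0 G0) ^ (e j : ℕ) := by
    have h2 := (mono_indep hind).comp (fun e : Fin a → Fin (q / a + 1) =>
      Finsupp.equivFunOnFinite.symm fun j => (e j : ℕ)) (by
        intro e e' h
        have h3 := Finsupp.equivFunOnFinite.symm.injective h
        funext j
        exact Fin.ext (congrFun h3 j))
    exact h2
  have hdetE : (Matrix.of fun i j => Ex i (x j)).det = 1 := by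
    have h3 : (Matrix.of fun i j => Ex i (x j)) = (1 : Matrix (Fin d) (Fin d) U) := by
      ext i j
      rw [Matrix.of_apply, hEx, Matrix.one_apply]
    rw [h3, Matrix.det_one]
  have hval : ∀ e, Φ e Ex = α 0 Ex ^ q * ∏ j, (α j.succ G0 / α 0 G0) ^ (e j : ℕ) := by
    intro e
    rw [hΦ, hdetE, one_pow, mul_one]
    have h3 : ∏ j : Fin a, α j.succ Ex ^ (e j : ℕ) = α 0 Ex ^ (∑ j, (e j : ℕ)) *
        ∏ j, (α j.succ G0 / α 0 G0) ^ (e j : ℕ) := by
      rw [← Finset.prod_pow_eq_pow_sum, ← Finset.prod_mul_distrib]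
      refine Finset.prod_congr rfl fun j _ => ?_
      rw [← hratio, div_pow, mul_div_cancel₀ _ (pow_ne_zero _ hα0)]
    rw [h3]
    have h4 : α 0 Ex ^ q = α 0 Ex ^ (∑ j, (e j : ℕ)) * α 0 Ex ^ (q - ∑ j, (e j : ℕ)) := by
      rw [← pow_add, Nat.add_sub_cancel' (hsum e)]
    rw [h4]
    ring
  have h2 : LinearIndependent ℂ Φ := by
    rw [Fintype.linearIndependent_iff] at h1 ⊢
    intro g hg
    refine h1 g ?_
    have h3 := congrFun hg Ex
    rw [Finset.sum_apply] at h3
    have h4 : α 0 Ex ^ q * ∑ e, g e • ∏ j, (α j.succ G0 / α 0 G0) ^ (e j : ℕ) = 0 := by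
      rw [Finset.mul_sum]
      refine Eq.trans (Finset.sum_congr rfl fun e _ => ?_) h3
      rw [Pi.smul_apply, hval, mul_smul_comm]
    exact (mul_eq_zero.1 h4).resolve_left (pow_ne_zero _ hα0)
  exact h2.comp _ (Equiv.injective _)

end

end Pool.Agent.U192.PT
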