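import Pool.Agent.U192.PE.Field
import Pool.Agent.U192.PT.Many

/-!
Kodaira's lemma: the functions which are algebraic over the ratios of the sections of the multiples
of `K + Δ` have poles which are bounded by sections.
-/

set_option autoImplicit false
set_option linter.overlappingInstances false
set_option linter.unusedSectionVars false

open FF Pool.Agent.W602.GT Pool.Agent.W603.LV Pool.Agent.W619.PQ Pool.Agent.Y172
open Pool.Agent.Y174 (PairSec PairKod PairNum IsPull IsPullFib LiesOn GeR)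

namespace Pool.Agent.U192.PT

open Pool.Agent.U192.PE

section

variable {K : Type} [Field K] [Algebra ℂ K]

theorem ger_add {P : Place ℂ K} {c : ℝ} {f g : K} (hf : GeR P c f) (hg : GeR P c g) :
    GeR P c (f + g) := by
  have h1 : Ge P ⌈c⌉ f := hf.imp id fun h => Int.ceil_le.2 h
  have h2 : Ge P ⌈c⌉ g := hg.imp id fun h => Int.ceil_le.2 h
  have h3 : Ge P ⌈c⌉ (f + g) := h1.add h2
  rcases h3 with h3 | h3
  · exact Or.inl h3
  · exact Or.inr (Int.ceil_le.1 h3)

/-- the form `η` is a section of `M (K + Δ)`, and so is `η z` -/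
def Bds (n : ℕ) (δ : Place ℂ K → ℝ) (M : ℕ) (η : (Fin n → Derivation ℂ K K) → K) (z : K) : Prop :=
  ∀ P : Place ℂ K, Divisorial n P → ∀ G : Fin n → Derivation ℂ K K, (∀ i, DerReg P (G i)) →
    GeR P (-(M * δ P)) (η G * z)

/-- the functions whose poles are bounded by a section -/
def InB (n : ℕ) (δ : Place ℂ K → ℝ) (z : K) : Prop :=
  ∃ (M : ℕ) (η : (Fin n → Derivation ℂ K K) → K), 1 ≤ M ∧ IsPluri M η ∧ η ≠ 0 ∧
    Bds n δ M η 1 ∧ Bds n δ M η z

theorem Bds.mul {n : ℕ} {δ : Place ℂ K → ℝ} {M M' : ℕ}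
    {η η' : (Fin n → Derivation ℂ K K) → K} {z z' : K} (h : Bds n δ M η z)
    (h' : Bds n δ M' η' z') : Bds n δ (M + M') (fun G => η G * η' G) (z * z') := by
  intro P hP G hG
  have h1 := (h P hP G hG).mul (h' P hP G hG)
  have h2 : η G * η' G * (z * z') = η G * z * (η' G * z') := by ring
  change GeR P (-(((M + M' : ℕ) : ℝ) * δ P)) (η G * η' G * (z * z'))
  rw [h2]
  refine h1.mono (le_of_eq ?_)
  push_cast
  ring

theorem Bds.add {n : ℕ} {δ : Place ℂ K → ℝ} {M : ℕ}
    {η : (Fin n → Derivation ℂ K K) → K} {z z' : K} (h : Bds n δ M η z)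
    (h' : Bds n δ M η z') : Bds n δ M η (z + z') := by
  intro P hP G hG
  rw [mul_add]
  exact ger_add (h P hP G hG) (h' P hP G hG)

theorem Bds.zero {n : ℕ} {δ : Place ℂ K → ℝ} {M : ℕ} {η : (Fin n → Derivation ℂ K K) → K} :
    Bds n δ M η 0 := by
  intro P hP G hG
  rw [mul_zero]
  exact Or.inl rfl

theorem form_mul_ne {n M M' : ℕ} (hn : Algebra.trdeg ℂ K = n)
    {η η' : (Fin n → Derivation ℂ K K) → K} (h : IsPluri M η) (h' : IsPluri M' η') (h0 : η ≠ 0)
    (h0' : η' ≠ 0) : (fun G => η G * η' G) ≠ 0 := by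
  obtain ⟨y, hy⟩ := Pool.Agent.W636.PG.exists_basis ℂ K n hn
  obtain ⟨E, hE⟩ := Pool.Agent.W636.PG.exists_duals ℂ K n y hy
  have key : ∀ {M : ℕ} {η : (Fin n → Derivation ℂ K K) → K}, IsPluri M η → η ≠ 0 → η E ≠ 0 := by
    intro M η hη hne h1
    apply hne
    funext G
    have h2 : η G = _ := pluri_coord hy hE hη G
    rw [h2, h1, mul_zero]
    rfl
  intro h1
  have h2 := congrFun h1 E
  exact mul_ne_zero (key h h0) (key h' h0') h2

/-- a common section -/
theorem common {n : ℕ} {δ : Place ℂ K → ℝ} (hn : Algebra.trdeg ℂ K = n)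
    (h1 : InB n δ (1 : K)) (S : Finset K) (hS : ∀ s ∈ S, InB n δ s) :
    ∃ (M : ℕ) (η : (Fin n → Derivation ℂ K K) → K), 1 ≤ M ∧ IsPluri M η ∧ η ≠ 0 ∧
      Bds n δ M η 1 ∧ ∀ s ∈ S, Bds n δ M η s := by
  classical
  induction S using Finset.induction_on with
  | empty =>
    obtain ⟨M, η, hM, hη, h0, h2, -⟩ := h1
    exact ⟨M, η, hM, hη, h0, h2, fun s hs => absurd hs (Finset.notMem_empty s)⟩
  | insert a S _ ih =>
    obtain ⟨M, η, hM, hη, h0, h2, h3⟩ := ih fun s hs => hS s (Finset.mem_insert_of_mem hs)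
    obtain ⟨M', η', hM', hη', h0', h2', h3'⟩ := hS a (Finset.mem_insert_self _ _)
    refine ⟨M + M', fun G => η G * η' G, by omega, pluri_mul hη hη',
      form_mul_ne hn hη hη' h0 h0', ?_, fun s hs => ?_⟩
    · have h4 := h2.mul h2'
      rwa [one_mul] at h4
    · rcases Finset.mem_insert.1 hs with rfl | hs
      · have h4 := h2.mul h3'
        rwa [one_mul] at h4
      · have h4 := (h3 s hs).mul h2'
        rwa [mul_one] at h4

/-- **The functions with bounded poles form a field.** -/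
noncomputable def fieldB (n : ℕ) (δ : Place ℂ K → ℝ) (hn : Algebra.trdeg ℂ K = n)
    (h1 : InB n δ (1 : K)) : IntermediateField ℂ K where
  carrier := {z | InB n δ z}
  mul_mem' := by
    rintro a b ⟨M, η, hM, hη, h0, h2, h3⟩ ⟨M', η', hM', hη', h0', h2', h3'⟩
    refine ⟨M + M', fun G => η G * η' G, by omega, pluri_mul hη hη',
      form_mul_ne hn hη hη' h0 h0', ?_, h3.mul h3'⟩
    have h4 := h2.mul h2'
    rwa [one_mul] at h4
  add_mem' := by
    rintro a b ⟨M, η, hM, hη, h0, h2, h3⟩ ⟨M', η', hM', hη', h0', h2', h3'⟩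
    refine ⟨M + M', fun G => η G * η' G, by omega, pluri_mul hη hη',
      form_mul_ne hn hη hη' h0 h0', ?_, ?_⟩
    · have h4 := h2.mul h2'
      rwa [one_mul] at h4
    · have h4 := h3.mul h2'
      have h5 := h2.mul h3'
      rw [mul_one] at h4
      rw [one_mul] at h5
      exact h4.add h5
  algebraMap_mem' := by
    intro c
    obtain ⟨M, η, hM, hη, h0, h2, -⟩ := h1
    refine ⟨M, η, hM, hη, h0, h2, fun P hP G hG => ?_⟩
    have h3 := h2 P hP G hG
    rw [mul_one] at h3
    have h4 : GeR P ((0 : ℤ) : ℝ) (algebraMap ℂ K c) :=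
      (Ge.const (P := P) c).imp id fun h => by exact_mod_cast h
    have h5 := h3.mul h4
    refine h5.mono (le_of_eq ?_)
    push_cast
    ring
  inv_mem' := by
    rintro a ⟨M, η, hM, hη, h0, h2, h3⟩
    by_cases ha : a = 0
    · rw [ha, inv_zero]
      exact ⟨M, η, hM, hη, h0, h2, Bds.zero⟩
    refine ⟨M, fun G => η G * a, hM, ?_, ?_, ?_, ?_⟩
    · intro A G
      have h4 : η (fun i => ∑ j, A i j • G j) = A.det ^ M * η G := hη A G
      change η _ * a = A.det ^ M * (η G * a)
      rw [h4]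
      ring
    · intro h4
      apply h0
      funext G
      exact (mul_eq_zero.1 (congrFun h4 G)).resolve_right ha
    · intro P hP G hG
      have h4 := h3 P hP G hG
      change GeR P _ (η G * a * 1)
      rwa [mul_one]
    · intro P hP G hG
      have h4 := h2 P hP G hG
      change GeR P _ (η G * a * a⁻¹)
      rwa [mul_assoc, mul_inv_cancel₀ ha]

theorem mem_fieldB {n : ℕ} {δ : Place ℂ K → ℝ} {hn : Algebra.trdeg ℂ K = n}
    {h1 : InB n δ (1 : K)} {z : K} : z ∈ fieldB n δ hn h1 ↔ InB n δ z := Iff.rfl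

/-- **It is algebraically closed.** -/
theorem fieldB_closed {n : ℕ} {δ : Place ℂ K → ℝ} (hn : Algebra.trdeg ℂ K = n)
    (h1 : InB n δ (1 : K)) {z : K} (hz : IsAlgebraic (fieldB n δ hn h1) z) : InB n δ z := by
  classical
  have hint : IsIntegral (fieldB n δ hn h1) z := hz.isIntegral
  obtain ⟨p, hp⟩ : ∃ p, p = minpoly (fieldB n δ hn h1) z := ⟨_, rfl⟩
  have hmon : p.Monic := by
    rw [hp]
    exact minpoly.monic hint
  have hdeg : 0 < p.natDegree := by
    rw [hp]
    exact minpoly.natDegree_pos hint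
  have hev : Polynomial.aeval z p = 0 := by
    rw [hp]
    exact minpoly.aeval _ _
  obtain ⟨M, η, hM, hη, h0, h2, h3⟩ := common hn h1
    ((Finset.range p.natDegree).image fun k => ((p.coeff k : fieldB n δ hn h1) : K))
    (fun s hs => by
      obtain ⟨k, -, rfl⟩ := Finset.mem_image.1 hs
      exact (p.coeff k).2)
  refine ⟨M, η, hM, hη, h0, h2, fun P hP G hG => ?_⟩
  by_cases hηG : η G = 0
  · rw [hηG, zero_mul]
    exact Or.inl rfl
  by_cases hz0 : z = 0
  · rw [hz0, mul_zero]
    exact Or.inl rfl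
  right
  rw [P.ord_mul hηG hz0]
  have h4 := (h2 P hP G hG).resolve_left (by rwa [mul_one])
  rw [mul_one] at h4
  rcases le_or_gt 0 (P.ord z) with h5 | h5
  · have h6 : (0 : ℝ) ≤ P.ord z := by exact_mod_cast h5
    push_cast
    linarith
  · -- some coefficient has at least the pole
    have hsum : z ^ p.natDegree = -∑ k ∈ Finset.range p.natDegree,
        ((p.coeff k : fieldB n δ hn h1) : K) * z ^ k := by
      have h6 : Polynomial.aeval z p = ∑ k ∈ Finset.range (p.natDegree + 1),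
          ((p.coeff k : fieldB n δ hn h1) : K) * z ^ k := by
        rw [Polynomial.aeval_eq_sum_range]
        refine Finset.sum_congr rfl fun k _ => ?_
        rw [Algebra.smul_def]
        rfl
      rw [h6, Finset.sum_range_succ, hmon.coeff_natDegree] at hev
      have h7 : ((1 : fieldB n δ hn h1) : K) = 1 := rfl
      rw [h7, one_mul] at hev
      linear_combination hev
    have hex : ∃ k ∈ Finset.range p.natDegree, ((p.coeff k : fieldB n δ hn h1) : K) ≠ 0 ∧
        P.ord ((p.coeff k : fieldB n δ hn h1) : K) ≤ P.ord z := by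
      by_contra hcon
      push Not at hcon
      have h6 : Ge P (p.natDegree * P.ord z + 1) (z ^ p.natDegree) := by
        rw [hsum]
        refine Ge.neg (Ge.sum _ _ fun k hk => ?_)
        by_cases hk0 : ((p.coeff k : fieldB n δ hn h1) : K) = 0
        · left
          rw [hk0, zero_mul]
        right
        have h7 := hcon k hk hk0
        rw [P.ord_mul hk0 (pow_ne_zero _ hz0), P.ord_pow]
        have h8 : k + 1 ≤ p.natDegree := Finset.mem_range.1 hk
        have h9 : ((k : ℤ) + 1) ≤ p.natDegree := by exact_mod_cast h8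
        nlinarith
      have h7 := h6.resolve_left (pow_ne_zero _ hz0)
      rw [P.ord_pow] at h7
      omega
    obtain ⟨k, hk, hk0, hk1⟩ := hex
    have h6 := (h3 _ (Finset.mem_image_of_mem _ hk) P hP G hG).resolve_left
      (mul_ne_zero hηG hk0)
    rw [P.ord_mul hηG hk0] at h6
    have h7 : (P.ord ((p.coeff k : fieldB n δ hn h1) : K) : ℝ) ≤ P.ord z := by exact_mod_cast hk1
    push_cast at h6 ⊢
    linarith

/-- **Kodaira's lemma.** -/
theorem kodaira {n : ℕ} {δ : Place ℂ K → ℝ} (hn : Algebra.trdeg ℂ K = n)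
    (h0 : PairKod ℂ K n δ 0) (S : Finset K)
    (hS : ∀ s ∈ S, IsAlgebraic (IntermediateField.adjoin ℂ (ratios K n δ)) s) :
    ∃ (M : ℕ) (η : (Fin n → Derivation ℂ K K) → K), 1 ≤ M ∧ IsPluri M η ∧ η ≠ 0 ∧
      Bds n δ M η 1 ∧ ∀ s ∈ S, Bds n δ M η s := by
  have hsec : ∀ {m : ℕ} {ω : (Fin n → Derivation ℂ K K) → K},
      PairSec ℂ K n δ {1} m 0 ω → Bds n δ m ω 1 := by
    intro m ω hω P hP G hG
    rw [mul_one]
    rcases hω.2 P hP G hG with h | ⟨s, hs, hs0, h⟩
    · exact Or.inl h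
    · right
      simpa using h
  obtain ⟨m, hm, ω, hω, D, hD, -⟩ := h0
  have h1 : InB n δ (1 : K) := ⟨m, ω 0, hm, (hω 0).1, fun h => hD 0 (by rw [h]; rfl),
    hsec (hω 0), hsec (hω 0)⟩
  refine common hn h1 S fun s hs => fieldB_closed hn h1 ?_
  have h2 : IntermediateField.adjoin ℂ (ratios K n δ) ≤ fieldB n δ hn h1 := by
    rw [IntermediateField.adjoin_le_iff]
    rintro x ⟨m', ω1, ω2, D', hm', hω1, hω2, hD', rfl⟩
    obtain ⟨y, hy⟩ := Pool.Agent.W636.PG.exists_basis ℂ K n hn
    obtain ⟨E, hE⟩ := Pool.Agent.W636.PG.exists_duals ℂ K n y hy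
    refine ⟨m', ω1, hm', hω1.1, fun h => hD' (by rw [h]; rfl), hsec hω1, fun P hP G hG => ?_⟩
    have h3 : ω1 D' = _ := pluri_coord hy hE hω1.1 D'
    have h4 : ω2 D' = _ := pluri_coord hy hE hω2.1 D'
    have h5 : ω1 G = _ := pluri_coord hy hE hω1.1 G
    have h6 : ω2 G = _ := pluri_coord hy hE hω2.1 G
    have h7 : ω1 G * (ω2 D' / ω1 D') = ω2 G := by
      have h8 : (Matrix.of fun i j => D' i (y j)).det ^ m' ≠ 0 := by
        intro h9
        apply hD'
        rw [h3, h9, zero_mul]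
      have h9 : ω1 E ≠ 0 := by
        intro h9
        apply hD'
        rw [h3, h9, mul_zero]
      rw [h3, h4, h5, h6]
      field_simp
    rw [h7]
    have h8 := hsec hω2 P hP G hG
    rwa [mul_one] at h8
  refine alg_map (A := K) (B := K) (AlgHom.id ℂ K) ?_ (hS s hs)
  rw [IntermediateField.map_id]
  exact h2

end

end Pool.Agent.U192.PT
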